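import Pool.Agent.Helper581.Min.Defs

set_option autoImplicit false

namespace Pool.Agent.Helper581.Min

/-- correspondence form -/
def Corr (G H : Type) [Group G] [Group H] : Prop :=
  ∃ D : Subgroup (G × H), (D.map (MonoidHom.fst G H)).FiniteIndex ∧
    (D.map (MonoidHom.snd G H)).FiniteIndex ∧ {h : H | ((1 : G), h) ∈ D}.Finite

variable {G H L : Type} [Group G] [Group H] [Group L]

theorem corr_of_larger (h : Larger G H) : Corr G H := by
  obtain ⟨G0, H0, N, hN, h1, h2, h3, φ, hφ⟩ := h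
  let E : Subgroup (G0 × H0) :=
    MonoidHom.eqLocus (φ.comp (MonoidHom.fst G0 H0))
      ((QuotientGroup.mk' N).comp (MonoidHom.snd G0 H0))
  let D : Subgroup (G × H) := E.map (MonoidHom.prodMap G0.subtype H0.subtype)
  have hD : ∀ (g : G0) (h : H0), φ g = QuotientGroup.mk' N h → ((g : G), (h : H)) ∈ D := by
    intro g h hgh
    exact ⟨(g, h), hgh, rfl⟩
  refine ⟨D, ?_, ?_, ?_⟩
  · have hle : G0 ≤ D.map (MonoidHom.fst G H) := by
      intro g hg
      obtain ⟨h, hh⟩ := QuotientGroup.mk'_surjective N (φ ⟨g, hg⟩)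
      exact ⟨(g, h), hD ⟨g, hg⟩ h hh.symm, rfl⟩
    exact Subgroup.finiteIndex_of_le hle
  · have hle : H0 ≤ D.map (MonoidHom.snd G H) := by
      intro h hh
      obtain ⟨g, hg⟩ := hφ (QuotientGroup.mk' N ⟨h, hh⟩)
      exact ⟨(g, h), hD g ⟨h, hh⟩ hg, rfl⟩
    exact Subgroup.finiteIndex_of_le hle
  · have hfin : ((N.map H0.subtype : Subgroup H) : Set H).Finite := by
      rw [Subgroup.coe_map]
      exact (Set.toFinite (N : Set H0)).image _
    refine hfin.subset ?_
    rintro h ⟨⟨g, k⟩, hgk, he⟩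
    have he1 : (g : G) = 1 := congrArg Prod.fst he
    have he2 : (k : H) = h := congrArg Prod.snd he
    have hg1 : g = 1 := Subtype.ext he1
    refine ⟨k, ?_, he2⟩
    have h4 : φ g = QuotientGroup.mk' N k := hgk
    rw [hg1, map_one] at h4
    exact (QuotientGroup.eq_one_iff k).1 h4.symm

theorem larger_of_corr (h : Corr G H) : Larger G H := by
  obtain ⟨D, h1, h2, h3⟩ := h
  let G0 := D.map (MonoidHom.fst G H)
  let H0 := D.map (MonoidHom.snd G H)
  let f : D →* G0 :=
    ((MonoidHom.fst G H).comp D.subtype).codRestrict G0 (fun d => ⟨d.1, d.2, rfl⟩)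
  let q : D →* H0 :=
    ((MonoidHom.snd G H).comp D.subtype).codRestrict H0 (fun d => ⟨d.1, d.2, rfl⟩)
  have hf : Function.Surjective f := by
    rintro ⟨g, ⟨d, hd, rfl⟩⟩
    exact ⟨⟨d, hd⟩, rfl⟩
  have hq : Function.Surjective q := by
    rintro ⟨g, ⟨d, hd, rfl⟩⟩
    exact ⟨⟨d, hd⟩, rfl⟩
  let N : Subgroup H0 := (f.ker).map q
  have hN : N.Normal := Subgroup.Normal.map inferInstance q hq
  refine ⟨G0, H0, N, hN, h1, h2, ?_, ?_⟩
  · have : ((N : Set H0)).Finite := by
      refine Set.Finite.of_finite_image (f := H0.subtype) ?_ (Subtype.val_injective.injOn)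
      refine h3.subset ?_
      rintro _ ⟨n, ⟨d, hd, rfl⟩, rfl⟩
      have : d.1.1 = 1 := congrArg Subtype.val (MonoidHom.mem_ker.1 hd)
      change ((1 : G), d.1.2) ∈ D
      rw [← this]
      exact d.2
    exact this
  · let g : D →* H0 ⧸ N := (QuotientGroup.mk' N).comp q
    have hg : f.ker ≤ g.ker := by
      intro d hd
      rw [MonoidHom.mem_ker]
      change QuotientGroup.mk' N (q d) = 1
      exact (QuotientGroup.eq_one_iff _).2 ⟨d, hd, rfl⟩
    refine ⟨f.liftOfSurjective hf ⟨g, hg⟩, ?_⟩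
    intro y
    obtain ⟨h, rfl⟩ := QuotientGroup.mk'_surjective N y
    obtain ⟨d, rfl⟩ := hq h
    refine ⟨f d, ?_⟩
    exact MonoidHom.liftOfRightInverse_comp_apply _ _ _ ⟨g, hg⟩ d

theorem larger_iff_corr : Larger G H ↔ Corr G H := ⟨corr_of_larger, larger_of_corr⟩

/-- finite index passes through projections, relative form -/
theorem map_inf_finiteIndex' {A B : Type} [Group A] [Group B]
    (D : Subgroup A) (p : A →* B) (M : Subgroup A) (hM : M.relIndex D ≠ 0)
    (h : (D.map p).FiniteIndex) : ((D ⊓ M).map p).FiniteIndex := by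
  have e1 : (D ⊓ M).map p = (M.subgroupOf D).map (p.comp D.subtype) := by
    rw [← Subgroup.map_map, Subgroup.subgroupOf_map_subtype, inf_comm]
  have e2 : (p.comp D.subtype).range = D.map p := by
    rw [MonoidHom.range_comp, Subgroup.range_subtype]
  rw [e1]
  constructor
  rw [Subgroup.index_map, e2]
  refine mul_ne_zero ?_ h.index_ne_zero
  have h3 : (M.subgroupOf D).FiniteIndex := ⟨hM⟩
  exact (Subgroup.finiteIndex_of_le (le_sup_left : M.subgroupOf D ≤ _)).index_ne_zero

/-- finite index passes through projections -/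
theorem map_inf_finiteIndex {A B : Type} [Group A] [Group B]
    (D : Subgroup A) (p : A →* B) (M : Subgroup A) (hM : M.FiniteIndex)
    (h : (D.map p).FiniteIndex) : ((D ⊓ M).map p).FiniteIndex := by
  have e1 : (D ⊓ M).map p = (M.subgroupOf D).map (p.comp D.subtype) := by
    rw [← Subgroup.map_map, Subgroup.subgroupOf_map_subtype, inf_comm]
  have e2 : (p.comp D.subtype).range = D.map p := by
    rw [MonoidHom.range_comp, Subgroup.range_subtype]
  rw [e1]
  constructor
  rw [Subgroup.index_map, e2]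
  refine mul_ne_zero ?_ h.index_ne_zero
  have h3 : (M.subgroupOf D).FiniteIndex := inferInstance
  exact (Subgroup.finiteIndex_of_le (le_sup_left : M.subgroupOf D ≤ _)).index_ne_zero

theorem comap_finiteIndex {A C : Type} [Group A] [Group C] (q : A →* C) (M : Subgroup C)
    (hM : M.FiniteIndex) : (M.comap q).FiniteIndex := by
  constructor
  rw [Subgroup.index_comap]
  have h : (M.subgroupOf q.range).FiniteIndex := inferInstance
  exact h.index_ne_zero

theorem Corr.trans (h1 : Corr G H) (h2 : Corr H L) : Corr G L := by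
  obtain ⟨D, d1, d2, d3⟩ := h1
  obtain ⟨E, e1, e2, e3⟩ := h2
  let F : Subgroup (G × L) :=
    { carrier := {x | ∃ h : H, (x.1, h) ∈ D ∧ (h, x.2) ∈ E}
      one_mem' := ⟨1, D.one_mem, E.one_mem⟩
      mul_mem' := by
        rintro a b ⟨h, h1, h2⟩ ⟨k, k1, k2⟩
        exact ⟨h * k, D.mul_mem h1 k1, E.mul_mem h2 k2⟩
      inv_mem' := by
        rintro a ⟨h, h1, h2⟩
        exact ⟨h⁻¹, D.inv_mem h1, E.inv_mem h2⟩ }
  refine ⟨F, ?_, ?_, ?_⟩
  · have hM := comap_finiteIndex (MonoidHom.snd G H) _ e1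
    have h3 := map_inf_finiteIndex D (MonoidHom.fst G H) _ hM d1
    refine Subgroup.finiteIndex_of_le (h := ?_) (K := F.map (MonoidHom.fst G L))
      (H := (D ⊓ (E.map (MonoidHom.fst H L)).comap (MonoidHom.snd G H)).map (MonoidHom.fst G H))
    rintro g ⟨⟨g', h⟩, ⟨hd, he⟩, rfl⟩
    obtain ⟨⟨h', l⟩, hE, hh⟩ := he
    change h' = h at hh
    subst hh
    exact ⟨(g', l), ⟨h', hd, hE⟩, rfl⟩
  · have hM := comap_finiteIndex (MonoidHom.fst H L) _ d2
    have h3 := map_inf_finiteIndex E (MonoidHom.snd H L) _ hM e2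
    refine Subgroup.finiteIndex_of_le (h := ?_) (K := F.map (MonoidHom.snd G L))
      (H := (E ⊓ (D.map (MonoidHom.snd G H)).comap (MonoidHom.fst H L)).map (MonoidHom.snd H L))
    rintro l ⟨⟨h, l'⟩, ⟨hE, he⟩, rfl⟩
    obtain ⟨⟨g, h'⟩, hD, hh⟩ := he
    change h' = h at hh
    subst hh
    exact ⟨(g, l'), ⟨h', hD, hE⟩, rfl⟩
  · have h4 : ∀ h : H, {l : L | (h, l) ∈ E}.Finite := by
      intro h
      by_cases hne : ∃ l0, (h, l0) ∈ E
      · obtain ⟨l0, hl0⟩ := hne
        refine (e3.image (fun l => l0 * l)).subset ?_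
        intro l hl
        refine ⟨l0⁻¹ * l, ?_, by simp⟩
        have := E.mul_mem (E.inv_mem hl0) hl
        simpa using this
      · have : {l : L | (h, l) ∈ E} = ∅ := by
          ext l
          simp only [Set.mem_ofPred_eq, Set.mem_empty_iff_false, iff_false]
          exact fun hl => hne ⟨l, hl⟩
        rw [this]
        exact Set.finite_empty
    refine (Set.Finite.biUnion d3 (fun h _ => h4 h)).subset ?_
    rintro l ⟨h, h1, h2⟩
    simp only [Set.mem_iUnion]
    exact ⟨h, h1, h2⟩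

end Pool.Agent.Helper581.Min
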