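import Pool.Agent.Helper581.Min.Main

set_option autoImplicit false

namespace Pool.Agent.Helper581.Min

variable {V : Type} {T : SphericalTree V} {G : Type} [Group G] [MulAction G V]

namespace IsBranchAction

variable (hB : IsBranchAction T G)

/-- elements fixing the subtrees below the vertices of `F` -/
def fixF (_ : IsBranchAction T G) (F : Set V) : Subgroup G where
  carrier := {g | ∀ u ∈ F, ∀ w, T.Below u w → g • w = w}
  one_mem' := fun u _ w _ => one_smul G w
  mul_mem' := fun {a b} ha hb u hu w hw => by rw [mul_smul, hb u hu w hw, ha u hu w hw]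
  inv_mem' := fun {a} ha u hu w hw => by rw [inv_smul_eq_iff, ha u hu w hw]

/-- elements fixing everything outside the subtrees below the vertices of `F` -/
def supF (_ : IsBranchAction T G) (F : Set V) : Subgroup G where
  carrier := {g | ∀ w, (∀ u ∈ F, ¬ T.Below u w) → g • w = w}
  one_mem' := fun w _ => one_smul G w
  mul_mem' := fun {a b} ha hb w hw => by rw [mul_smul, hb w hw, ha w hw]
  inv_mem' := fun {a} ha w hw => by rw [inv_smul_eq_iff, ha w hw]

/-- the group generated by the rigid stabilizers of the vertices of `F` -/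
def ristF (_ : IsBranchAction T G) (F : Set V) : Subgroup G := ⨆ u : F, T.rist G u.1

include hB

theorem ristF_le_supF (F : Set V) : hB.ristF F ≤ hB.supF F := by
  apply iSup_le
  rintro ⟨u, hu⟩ g hg w hw
  exact hg w (hw u hu)

theorem supF_fixF_comm {F : Set V} {a b : G} (ha : a ∈ hB.supF F) (hb : b ∈ hB.fixF F) :
    a * b = b * a := by
  apply hB.comm_of_disjoint {w | ∃ u ∈ F, T.Below u w}
  · intro w hw
    apply ha
    intro u hu hc
    exact hw ⟨u, hu, hc⟩
  · rintro w ⟨u, hu, hc⟩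
    exact hb u hu w hc

theorem supF_inf_fixF {F : Set V} {a : G} (ha : a ∈ hB.supF F) (hb : a ∈ hB.fixF F) : a = 1 := by
  apply hB.faithful
  intro w
  by_cases h : ∃ u ∈ F, T.Below u w
  · obtain ⟨u, hu, hc⟩ := h
    exact hb u hu w hc
  · apply ha
    intro u hu hc
    exact h ⟨u, hu, hc⟩

/-- graph of the projection to `ristF F` -/
def projF (F : Set V) : Subgroup (G × G) where
  carrier := {x | x.2 ∈ hB.ristF F ∧ ∃ c ∈ hB.fixF F, x.1 = x.2 * c}
  one_mem' := ⟨one_mem _, 1, one_mem _, by simp⟩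
  mul_mem' := by
    rintro ⟨g, r⟩ ⟨g', r'⟩ ⟨hr, c, hc, h⟩ ⟨hr', c', hc', h'⟩
    refine ⟨mul_mem hr hr', c * c', mul_mem hc hc', ?_⟩
    change g = r * c at h
    change g' = r' * c' at h'
    change g * g' = (r * r') * (c * c')
    have := hB.supF_fixF_comm (hB.ristF_le_supF F hr') hc
    rw [h, h']
    calc r * c * (r' * c') = r * (c * r') * c' := by group
      _ = r * (r' * c) * c' := by rw [this]
      _ = r * r' * (c * c') := by group
  inv_mem' := by
    rintro ⟨g, r⟩ ⟨hr, c, hc, h⟩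
    refine ⟨inv_mem hr, c⁻¹, inv_mem hc, ?_⟩
    change g = r * c at h
    change g⁻¹ = r⁻¹ * c⁻¹
    rw [h, mul_inv_rev]
    exact (hB.supF_fixF_comm (inv_mem (hB.ristF_le_supF F hr)) (inv_mem hc)).symm

theorem projF_fst (F : Set V) {m : ℕ} (hF : ∀ u ∈ F, T.lev u = m) :
    ((hB.projF F).map (MonoidHom.fst G G)).FiniteIndex := by
  have h := hB.rist_index m
  refine Subgroup.finiteIndex_of_le (H := ⨆ u : {u : V // T.lev u = m}, T.rist G u.1) ?_
  apply iSup_le
  rintro ⟨u, hu⟩ g hg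
  by_cases huF : u ∈ F
  · refine ⟨(g, g), ⟨?_, 1, one_mem _, by simp⟩, rfl⟩
    exact (le_iSup (fun u : F => T.rist G u.1) ⟨u, huF⟩) hg
  · refine ⟨(g, 1), ⟨one_mem _, g, ?_, by simp⟩, rfl⟩
    intro u' hu' w hw
    apply hg
    intro hc
    have : u = u' := hc.unique hw (hu.trans (hF u' hu').symm)
    subst this
    exact huF hu'

/-- The part of `G` projecting into a subgroup of finite index of `ristF F`. -/
theorem projF_comap (F : Set V) {m : ℕ} (hF : ∀ u ∈ F, T.lev u = m) (A : Subgroup G)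
    (hA : A.relIndex (hB.ristF F) ≠ 0) :
    ((hB.projF F ⊓ A.comap (MonoidHom.snd G G)).map (MonoidHom.fst G G)).FiniteIndex := by
  refine map_inf_finiteIndex' _ _ _ ?_ (hB.projF_fst F hF)
  have e : (hB.projF F).map (MonoidHom.snd G G) = hB.ristF F := by
    apply le_antisymm
    · rintro _ ⟨⟨g, r⟩, h, rfl⟩
      exact h.1
    · intro r hr
      exact ⟨(r, r), ⟨hr, 1, one_mem _, by simp⟩, rfl⟩
  rw [Subgroup.relIndex_comap, e]
  exact hA

/-- (iii) implies (ii) -/
theorem larger_of_comm {v : V} {F : Set V} {m : ℕ} (hF : ∀ u ∈ F, T.Below v u ∧ T.lev u = m)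
    (hc : Commensurable G (hB.ristF F)) : Larger (T.rist G v) G := by
  obtain ⟨B, A, hBf, hA, ⟨ψ⟩⟩ := hc
  have hsub : hB.ristF F ≤ T.rist G v := by
    apply iSup_le
    rintro ⟨u, hu⟩
    exact rist_mono (hF u hu).1
  apply larger_of_corr
  let D : Subgroup (T.rist G v × G) :=
    { carrier := {x | ∃ b : B, x.2 = b ∧ ∃ c ∈ hB.fixF F, x.1.1 = (ψ b).1.1 * c}
      one_mem' := ⟨1, rfl, 1, one_mem _, by simp⟩
      mul_mem' := by
        rintro ⟨r, g⟩ ⟨r', g'⟩ ⟨b, hb, c, hc, h⟩ ⟨b', hb', c', hc', h'⟩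
        refine ⟨b * b', by rw [Subgroup.coe_mul, ← hb, ← hb']; rfl, c * c', mul_mem hc hc', ?_⟩
        change r.1 = (ψ b).1.1 * c at h
        change r'.1 = (ψ b').1.1 * c' at h'
        change r.1 * r'.1 = (ψ (b * b')).1.1 * (c * c')
        have := hB.supF_fixF_comm (hB.ristF_le_supF F (ψ b').1.2) hc
        rw [h, h', map_mul]
        change _ = ((ψ b).1.1 * (ψ b').1.1) * (c * c')
        calc (ψ b).1.1 * c * ((ψ b').1.1 * c') = (ψ b).1.1 * (c * (ψ b').1.1) * c' := by group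
          _ = (ψ b).1.1 * ((ψ b').1.1 * c) * c' := by rw [this]
          _ = (ψ b).1.1 * (ψ b').1.1 * (c * c') := by group
      inv_mem' := by
        rintro ⟨r, g⟩ ⟨b, hb, c, hc, h⟩
        refine ⟨b⁻¹, by rw [Subgroup.coe_inv, ← hb]; rfl, c⁻¹, inv_mem hc, ?_⟩
        change r.1 = (ψ b).1.1 * c at h
        change r.1⁻¹ = (ψ b⁻¹).1.1 * c⁻¹
        rw [h, mul_inv_rev, map_inv]
        exact (hB.supF_fixF_comm (inv_mem (hB.ristF_le_supF F (ψ b).1.2)) (inv_mem hc)).symm }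
  refine ⟨D, ?_, ?_, ?_⟩
  · have h1 : (A.map (hB.ristF F).subtype).relIndex (hB.ristF F) ≠ 0 := by
      have h2 : (A.map (hB.ristF F).subtype).relIndex (hB.ristF F) = A.index := by
        rw [Subgroup.relIndex, Subgroup.subgroupOf, Subgroup.comap_map_eq_self_of_injective
          (Subgroup.subtype_injective _)]
      rw [h2]
      exact hA.index_ne_zero
    have h3 := hB.projF_comap F (fun u hu => (hF u hu).2) _ h1
    have h4 := comap_finiteIndex (T.rist G v).subtype _ h3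
    refine Subgroup.finiteIndex_of_le (h := ?_) (K := D.map (MonoidHom.fst _ _)) (H :=
      ((hB.projF F ⊓ (A.map (hB.ristF F).subtype).comap (MonoidHom.snd G G)).map
        (MonoidHom.fst G G)).comap (T.rist G v).subtype)
    rintro r ⟨⟨g, a⟩, ⟨⟨-, c, hc, hgc⟩, ⟨a', ha', haa⟩⟩, hg⟩
    change g = r.1 at hg
    change g = a * c at hgc
    change a'.1 = a at haa
    subst hg
    refine ⟨(r, (ψ.symm ⟨a', ha'⟩ : B)), ⟨ψ.symm ⟨a', ha'⟩, rfl, c, hc, ?_⟩, rfl⟩
    change r.1 = _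
    rw [hgc, ← haa, MulEquiv.apply_symm_apply]
  · refine Subgroup.finiteIndex_of_le (H := B) ?_
    intro b hb
    refine ⟨(⟨(ψ ⟨b, hb⟩).1.1, hsub (ψ ⟨b, hb⟩).1.2⟩, b), ⟨⟨b, hb⟩, rfl, 1, one_mem _, ?_⟩, rfl⟩
    simp
  · refine (Set.finite_singleton (1 : G)).subset ?_
    rintro g ⟨b, hb, c, hc, h⟩
    change (1 : G) = (ψ b).1.1 * c at h
    change g = b at hb
    have h2 : (ψ b).1.1 = c⁻¹ := (mul_eq_one_iff_eq_inv.1 h.symm)
    have h3 : (ψ b).1.1 = 1 := hB.supF_inf_fixF (hB.ristF_le_supF F (ψ b).1.2)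
      (by rw [h2]; exact inv_mem hc)
    have h4 : ψ b = 1 := Subtype.ext (Subtype.ext h3)
    have h5 : b = 1 := by rwa [map_eq_one_iff ψ ψ.injective] at h4
    rw [Set.mem_singleton_iff, hb, h5]
    rfl

theorem ristF_singleton (v : V) : hB.ristF {v} = T.rist G v := by
  apply le_antisymm
  · apply iSup_le
    rintro ⟨u, hu⟩
    have hu' : u = v := hu
    subst hu'
    exact le_rfl
  · exact le_iSup (fun u : ({v} : Set V) => T.rist G u.1) ⟨v, rfl⟩

/-- no finite part -/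
theorem no_finite (hG : Infinite G) (N G0 : Subgroup G) (hN : (N : Set G).Finite)
    (hG0 : G0.FiniteIndex) (hnorm : ∀ g ∈ G0, ∀ k ∈ N, g * k * g⁻¹ ∈ N) {g : G} (hg : g ∈ N) :
    g = 1 := by
  by_contra hne
  have h2 : ∃ w : V, g • w ≠ w := by
    by_contra hc
    push Not at hc
    exact hne (hB.faithful g hc)
  obtain ⟨w, hw⟩ := h2
  have hinf : Infinite ((G0.subgroupOf (T.rist G w))) := by
    have h3 := hB.rist_infinite hG w
    have h4 : (G0.subgroupOf (T.rist G w)).FiniteIndex := inferInstance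
    by_contra hc
    rw [not_infinite_iff_finite] at hc
    have h6 : Finite (T.rist G w ⧸ (G0.subgroupOf (T.rist G w))) :=
      Subgroup.finite_quotient_of_finiteIndex
    have h7 : Finite (T.rist G w) := Finite.of_equiv _ (Subgroup.groupEquivQuotientProdSubgroup
        (s := (G0.subgroupOf (T.rist G w)))).symm
    exact (not_finite_iff_infinite.2 h3) h7
  have hfin : Finite N := hN
  obtain ⟨x, y, hxy, he⟩ := Finite.exists_ne_map_eq_of_infinite
    (fun x : (G0.subgroupOf (T.rist G w)) =>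
      (⟨x.1.1 * g * x.1.1⁻¹, hnorm _ x.2 g hg⟩ : N))
  have he2 : x.1.1 * g * x.1.1⁻¹ = y.1.1 * g * y.1.1⁻¹ := congrArg Subtype.val he
  have h3 : (y.1.1⁻¹ * x.1.1) ∈ T.rist G w := mul_mem (inv_mem y.1.2) x.1.2
  have h4 : y.1.1⁻¹ * x.1.1 ≠ 1 := by
    intro hc
    apply hxy
    ext
    exact (inv_mul_eq_one.1 hc).symm
  apply hB.not_comm hw h3 h4
  calc g * (y.1.1⁻¹ * x.1.1) = y.1.1⁻¹ * (y.1.1 * g * y.1.1⁻¹) * x.1.1 := by group
    _ = y.1.1⁻¹ * (x.1.1 * g * x.1.1⁻¹) * x.1.1 := by rw [he2]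
    _ = y.1.1⁻¹ * x.1.1 * g := by group

/-- (ii) implies (iii) -/
theorem comm_of_larger (hJ : JustInfinite G) (v : V) (hL : Larger (T.rist G v) G) :
    ∃ (m : ℕ) (F : Set V), F.Nonempty ∧ (∀ u ∈ F, T.Below v u ∧ T.lev u = m) ∧
      Commensurable G (hB.ristF F) := by
  obtain ⟨D0, d1, d2, d3⟩ := corr_of_larger hL
  let D : Subgroup (G × G) := D0.map (MonoidHom.prodMap (T.rist G v).subtype (MonoidHom.id G))
  have hD : ∀ r g, (r, g) ∈ D ↔ ∃ hr : r ∈ T.rist G v, ((⟨r, hr⟩ : T.rist G v), g) ∈ D0 := by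
    intro r g
    constructor
    · rintro ⟨⟨r', g'⟩, h, he⟩
      have h1 : r'.1 = r := congrArg Prod.fst he
      have h2 : g' = g := congrArg Prod.snd he
      subst h1 h2
      exact ⟨r'.2, h⟩
    · rintro ⟨hr, h⟩
      exact ⟨(⟨r, hr⟩, g), h, rfl⟩
  set R0 : Subgroup G := D.map (MonoidHom.fst G G) with hR0
  have hR0v : R0 ≤ T.rist G v := by
    rintro _ ⟨⟨r, g⟩, h, rfl⟩
    exact ((hD r g).1 h).1
  have hR0eq : R0 = (D0.map (MonoidHom.fst _ _)).map (T.rist G v).subtype := by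
    apply le_antisymm
    · rintro _ ⟨⟨r, g⟩, h, rfl⟩
      obtain ⟨hr, h⟩ := (hD r g).1 h
      exact ⟨⟨r, hr⟩, ⟨(⟨r, hr⟩, g), h, rfl⟩, rfl⟩
    · rintro _ ⟨_, ⟨⟨r, g⟩, h, rfl⟩, rfl⟩
      exact ⟨(r.1, g), (hD _ _).2 ⟨r.2, h⟩, rfl⟩
  have hR0i : R0.relIndex (T.rist G v) ≠ 0 := by
    rw [hR0eq, Subgroup.relIndex, Subgroup.subgroupOf, Subgroup.comap_map_eq_self_of_injective
      (Subgroup.subtype_injective _)]
    exact d1.index_ne_zero
  have d2' : (D.map (MonoidHom.snd G G)).FiniteIndex := by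
    refine Subgroup.finiteIndex_of_le (H := D0.map (MonoidHom.snd _ _)) ?_
    rintro _ ⟨⟨r, g⟩, h, rfl⟩
    exact ⟨(r.1, g), (hD _ _).2 ⟨r.2, h⟩, rfl⟩
  have hN : ∀ g, ((1 : G), g) ∈ D → g = 1 := by
    intro g hg
    refine hB.no_finite hJ.1 (D.comap (MonoidHom.inr G G)) (D.map (MonoidHom.snd G G)) ?_ d2' ?_ hg
    · refine d3.subset ?_
      intro x hx
      exact ((hD 1 x).1 hx).2
    · rintro _ ⟨⟨r, y⟩, hry, rfl⟩ k hk
      have h1 := D.mul_mem (D.mul_mem hry hk) (D.inv_mem hry)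
      change ((1 : G), y * k * y⁻¹) ∈ D
      simpa using h1
  set K : Subgroup G := D.comap (MonoidHom.inl G G) with hKdef
  have hKR : K ≤ R0 := by
    intro k hk
    exact ⟨(k, 1), hk, rfl⟩
  have hK : ∀ g ∈ R0, ∀ k ∈ K, g * k * g⁻¹ ∈ K := by
    rintro _ ⟨⟨g, y⟩, hgy, rfl⟩ k hk
    have h1 := D.mul_mem (D.mul_mem hgy hk) (D.inv_mem hgy)
    change (g * k * g⁻¹, (1 : G)) ∈ D
    simpa using h1
  -- the normal subgroup acting below `v` through `R0`
  have hP := hB.projF_comap {v} (m := T.lev v) (fun u hu => by rw [Set.mem_singleton_iff.1 hu]) R0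
    (by rw [hB.ristF_singleton]; exact hR0i)
  set G1 : Subgroup G := ((hB.projF {v} ⊓ R0.comap (MonoidHom.snd G G)).map
    (MonoidHom.fst G G)).normalCore with hG1
  have hdec : ∀ g ∈ G1, ∃ r ∈ R0, ∃ c ∈ hB.fixF {v}, g = r * c := by
    intro g hg
    obtain ⟨⟨g', r⟩, ⟨⟨-, c, hc, hgc⟩, hr⟩, hgg⟩ := Subgroup.normalCore_le _ hg
    change g' = g at hgg
    subst hgg
    exact ⟨r, hr, c, hc, hgc⟩
  have hrv : ∀ r ∈ T.rist G v, r ∈ hB.supF {v} := fun r hr =>
    hB.ristF_le_supF {v} (by rw [hB.ristF_singleton]; exact hr)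
  have hG1R : ∀ g ∈ G1, g ∈ T.rist G v → g ∈ R0 := by
    intro g hg hgv
    obtain ⟨r, hr, c, hc, rfl⟩ := hdec g hg
    have h1 : c ∈ hB.supF {v} := by
      have := mul_mem (inv_mem (hrv r (hR0v hr))) (hrv _ hgv)
      simpa using this
    rw [hB.supF_inf_fixF h1 hc, mul_one]
    exact hr
  obtain ⟨n, hst⟩ := hB.exists_stable G1 inferInstance inferInstance
  set m := max n (T.lev v) with hm
  let F : Set V := {u | T.Below v u ∧ T.lev u = m ∧ ∀ w, T.Below u w → ∀ x ∈ K, x • w = w}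
  have hmv : ∀ u : {u : V // T.lev u = m}, ∃ l : ℕ, T.Below v u.1 → u.1 ∉ F →
      ∀ w, T.Below u.1 w → l ≤ T.lev w → ∃ x ∈ K, x • w ≠ w := by
    rintro ⟨u, hu⟩
    by_cases hcase : T.Below v u ∧ u ∉ F
    · obtain ⟨hvu, huF⟩ := hcase
      have h1 : ∃ w, T.Below u w ∧ ∃ x ∈ K, x • w ≠ w := by
        by_contra hc
        push Not at hc
        exact huF ⟨hvu, hu, hc⟩
      obtain ⟨w0, hw0, x, hx, hxw⟩ := h1
      refine ⟨T.lev w0, fun _ _ w hw hl => ?_⟩
      obtain ⟨w', hw1, hw2, hw3⟩ := T.exists_between hw (n := T.lev w0) hw0.lev_le hl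
      obtain ⟨u0, hu0, hu0l⟩ := T.exists_anc u (n := n) (by rw [hu]; exact le_max_left _ _)
      obtain ⟨g, hg, hgw⟩ := hst u0 hu0l w0 w' (hu0.trans hw0) (hu0.trans hw1) hw3.symm
      obtain ⟨r, hr, c, hc, rfl⟩ := hdec g hg
      have hcw : c • w0 = w0 := hc v rfl w0 (hvu.trans hw0)
      rw [mul_smul, hcw] at hgw
      refine ⟨r * x * r⁻¹, hK r hr x hx, ?_⟩
      intro hfix
      have h2 := hB.fix_anc hw2 hfix
      rw [← hgw, mul_smul, mul_smul, inv_smul_smul] at h2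
      exact hxw (MulAction.injective r h2)
    · exact ⟨0, fun h1 h2 => absurd ⟨h1, h2⟩ hcase⟩
  choose f hf using hmv
  obtain ⟨L, hL⟩ := (Set.finite_range f).bddAbove
  set l := max L m with hl
  have hQf := hB.derived_finiteIndex hJ (G1 := G1) inferInstance inferInstance l
  set Q : Subgroup G := ⨆ i : {w : V // T.lev w = l}, ⁅T.rist G i.1 ⊓ G1, T.rist G i.1 ⊓ G1⁆
    with hQ
  have hFv : hB.ristF F ≤ T.rist G v := by
    apply iSup_le
    rintro ⟨u, hu⟩
    exact rist_mono hu.1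
  let S : Subgroup G :=
    { carrier := {x | ∃ p ∈ hB.ristF F ⊓ R0, ∃ k ∈ K, ∃ c ∈ hB.fixF {v}, x = p * k * c}
      one_mem' := ⟨1, one_mem _, 1, one_mem _, 1, one_mem _, by simp⟩
      mul_mem' := by
        rintro _ _ ⟨p, hp, k, hk, c, hc, rfl⟩ ⟨p', hp', k', hk', c', hc', rfl⟩
        refine ⟨p * p', mul_mem hp hp', p'⁻¹ * k * p' * k', ?_, c * c', mul_mem hc hc', ?_⟩
        · have := hK p'⁻¹ (inv_mem hp'.2) k hk
          rw [inv_inv] at this
          exact mul_mem this hk'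
        · have h1 : (p' * k') * c = c * (p' * k') :=
            hB.supF_fixF_comm (hrv _ (mul_mem (hR0v hp'.2) (hR0v (hKR hk')))) hc
          calc p * k * c * (p' * k' * c') = p * k * (c * (p' * k')) * c' := by group
            _ = p * k * ((p' * k') * c) * c' := by rw [h1]
            _ = p * p' * (p'⁻¹ * k * p' * k') * (c * c') := by group
      inv_mem' := by
        rintro _ ⟨p, hp, k, hk, c, hc, rfl⟩
        refine ⟨p⁻¹, inv_mem hp, p * k⁻¹ * p⁻¹, hK p hp.2 _ (inv_mem hk), c⁻¹, inv_mem hc, ?_⟩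
        have h1 : (p * k)⁻¹ * c⁻¹ = c⁻¹ * (p * k)⁻¹ :=
          hB.supF_fixF_comm (hrv _ (inv_mem (mul_mem (hR0v hp.2) (hR0v (hKR hk))))) (inv_mem hc)
        calc (p * k * c)⁻¹ = c⁻¹ * (p * k)⁻¹ := by group
          _ = (p * k)⁻¹ * c⁻¹ := by rw [h1]
          _ = p⁻¹ * (p * k⁻¹ * p⁻¹) * c⁻¹ := by group }
  have hQS : Q ≤ S := by
    apply iSup_le
    rintro ⟨w, hw⟩
    by_cases hvw : T.Below v w
    · obtain ⟨u, hu1, hu2, hu3⟩ := T.exists_between hvw (n := m) (le_max_right _ _)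
        (by rw [hw]; exact le_max_right _ _)
      have hsub : T.rist G w ⊓ G1 ≤ T.rist G w ⊓ R0 := by
        intro g hg
        exact ⟨hg.1, hG1R g hg.2 (rist_mono hvw hg.1)⟩
      by_cases huF : u ∈ F
      · rw [Subgroup.commutator_le]
        intro a ha b hb
        have hmem : ∀ g ∈ T.rist G w ⊓ G1, g ∈ hB.ristF F ⊓ R0 := by
          intro g hg
          exact ⟨(le_iSup (fun u : F => T.rist G u.1) ⟨u, huF⟩) (rist_mono hu2 hg.1),
            (hsub hg).2⟩
        exact ⟨a * b * a⁻¹ * b⁻¹, mul_mem (mul_mem (mul_mem (hmem a ha) (hmem b hb))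
          (inv_mem (hmem a ha))) (inv_mem (hmem b hb)), 1, one_mem _, 1, one_mem _, by
            simp [commutatorElement_def]⟩
      · obtain ⟨x, hx, hxw⟩ := hf ⟨u, hu3⟩ hu1 huF w hu2 (by
          rw [hw]
          exact le_trans (hL ⟨⟨u, hu3⟩, rfl⟩) (le_max_left _ _))
        have h1 := hB.comm_le (K := K) (G1 := R0) hK hx hxw
        intro q hq
        have h2 : q ∈ K := h1 (Subgroup.commutator_mono hsub hsub hq)
        exact ⟨1, one_mem _, q, h2, 1, one_mem _, by simp⟩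
    · have h1 : T.rist G w ≤ hB.fixF {v} := by
        intro g hg u hu w' hw'
        rw [Set.mem_singleton_iff.1 hu] at hw'
        apply hg
        intro hc
        obtain ⟨v', hv', hv'l⟩ := T.exists_anc w (n := T.lev v)
          (by rw [hw]; exact le_trans (le_max_right _ _) (le_max_right _ _))
        have : v' = v := (hv'.trans hc).unique hw' hv'l
        subst this
        exact hvw hv'
      intro q hq
      have h2 : q ∈ T.rist G w := by
        have h3 : ⁅T.rist G w ⊓ G1, T.rist G w ⊓ G1⁆ ≤ T.rist G w := by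
          rw [Subgroup.commutator_le]
          intro a ha b hb
          exact mul_mem (mul_mem (mul_mem ha.1 hb.1) (inv_mem ha.1)) (inv_mem hb.1)
        exact h3 hq
      exact ⟨1, one_mem _, 1, one_mem _, q, h1 h2, by simp⟩
  -- the subgroup realising commensurability
  set D3 : Subgroup (G × G) := D ⊓ (hB.ristF F).comap (MonoidHom.fst G G) with hD3
  have hsnd : (D3.map (MonoidHom.snd G G)).FiniteIndex := by
    have h1 := map_inf_finiteIndex D (MonoidHom.snd G G) _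
      (comap_finiteIndex (MonoidHom.fst G G) Q hQf) d2'
    refine Subgroup.finiteIndex_of_le (h := ?_) (K := D3.map (MonoidHom.snd G G))
      (H := (D ⊓ Q.comap (MonoidHom.fst G G)).map (MonoidHom.snd G G))
    rintro _ ⟨⟨q, g⟩, ⟨hd, hq⟩, rfl⟩
    obtain ⟨p, hp, k, hk, c, hc, hqe⟩ := hQS hq
    change q = p * k * c at hqe
    have hqv : q ∈ T.rist G v := ((hD q g).1 hd).1
    have hc1 : c = 1 := by
      apply hB.supF_inf_fixF _ hc
      have h2 : c = (p * k)⁻¹ * q := by rw [hqe]; group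
      rw [h2]
      exact hrv _ (mul_mem (inv_mem (mul_mem (hR0v hp.2) (hR0v (hKR hk)))) hqv)
    refine ⟨(p, g), ⟨?_, hp.1⟩, rfl⟩
    have h3 := D.mul_mem hd (D.inv_mem (show (k, (1 : G)) ∈ D from hk))
    rw [hqe, hc1] at h3
    simpa using h3
  have hK1 : ∀ p, (p, (1 : G)) ∈ D3 → p = 1 := by
    intro p hp
    refine hB.supF_inf_fixF (hB.ristF_le_supF F hp.2) ?_
    intro u hu w hw
    exact hu.2.2 w hw p hp.1
  have hfst : ((D3.map (MonoidHom.fst G G)).subgroupOf (hB.ristF F)).FiniteIndex := by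
    constructor
    change (D3.map (MonoidHom.fst G G)).relIndex (hB.ristF F) ≠ 0
    have h1 : R0.relIndex (hB.ristF F) ≠ 0 := fun hc =>
      hR0i (Subgroup.relIndex_eq_zero_of_le_right hFv hc)
    have h2 : D3.map (MonoidHom.fst G G) = R0 ⊓ hB.ristF F := by
      apply le_antisymm
      · rintro _ ⟨⟨p, g⟩, h, rfl⟩
        exact ⟨⟨(p, g), h.1, rfl⟩, h.2⟩
      · rintro _ ⟨⟨⟨p, g⟩, h, rfl⟩, h2⟩
        exact ⟨(p, g), ⟨h, h2⟩, rfl⟩
    rw [h2, Subgroup.inf_relIndex_right]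
    exact h1
  let e1 : D3 →* D3.map (MonoidHom.snd G G) := (MonoidHom.snd G G).subgroupMap D3
  let e2 : D3 →* D3.map (MonoidHom.fst G G) := (MonoidHom.fst G G).subgroupMap D3
  have he1 : Function.Bijective e1 := by
    refine ⟨?_, (MonoidHom.snd G G).subgroupMap_surjective D3⟩
    rw [injective_iff_map_eq_one]
    rintro ⟨⟨p, g⟩, h⟩ he
    have hg : g = 1 := congrArg Subtype.val he
    subst hg
    have hp := hK1 p h
    subst hp
    rfl
  have he2 : Function.Bijective e2 := by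
    refine ⟨?_, (MonoidHom.fst G G).subgroupMap_surjective D3⟩
    rw [injective_iff_map_eq_one]
    rintro ⟨⟨p, g⟩, h⟩ he
    have hp : p = 1 := congrArg Subtype.val he
    subst hp
    have hg := hN g h.1
    subst hg
    rfl
  have hle3 : D3.map (MonoidHom.fst G G) ≤ hB.ristF F := by
    rintro _ ⟨⟨p, g⟩, h, rfl⟩
    exact h.2
  refine ⟨m, F, ?_, fun u hu => ⟨hu.1, hu.2.1⟩, D3.map (MonoidHom.snd G G),
    (D3.map (MonoidHom.fst G G)).subgroupOf (hB.ristF F), hsnd, hfst,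
    ⟨((MulEquiv.ofBijective e1 he1).symm.trans (MulEquiv.ofBijective e2 he2)).trans
      (Subgroup.subgroupOfEquivOfLe hle3).symm⟩⟩
  by_contra hF
  rw [Set.not_nonempty_iff_eq_empty] at hF
  have h1 : hB.ristF F = ⊥ := by
    rw [eq_bot_iff]
    apply iSup_le
    rintro ⟨u, hu⟩
    rw [hF] at hu
    exact absurd hu (Set.notMem_empty u)
  have h2 : D3.map (MonoidHom.snd G G) = ⊥ := by
    rw [eq_bot_iff]
    rintro _ ⟨⟨p, g⟩, h, rfl⟩
    have hp : p ∈ hB.ristF F := h.2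
    rw [h1, Subgroup.mem_bot] at hp
    subst hp
    rw [Subgroup.mem_bot]
    exact hN g h.1
  rw [h2] at hsnd
  have h3 := hsnd.index_ne_zero
  rw [Subgroup.index_bot] at h3
  exact (not_finite_iff_infinite.2 hJ.1) (Nat.finite_of_card_ne_zero h3)

/-- The criterion in terms of commensurability. -/
theorem minimal_iff' (hJ : JustInfinite G) :
    IsMinimal G ↔ ∀ v : V, ∃ (m : ℕ) (F : Set V), F.Nonempty ∧
      (∀ u ∈ F, T.Below v u ∧ T.lev u = m) ∧ Commensurable G (hB.ristF F) := by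
  rw [hB.minimal_iff hJ]
  refine forall_congr' fun v => ⟨hB.comm_of_larger hJ v, ?_⟩
  rintro ⟨m, F, -, hF, hc⟩
  exact hB.larger_of_comm hF hc

end IsBranchAction

end Pool.Agent.Helper581.Min
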