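import Mathlib

set_option autoImplicit false

namespace Pool.Agent.Helper581.Min

/-- A spherically homogeneous rooted tree with vertex type `V`: levels, parent map, root, and
degree sequence `deg`; every vertex of level `n` has exactly `deg n ≥ 2` children. -/
structure SphericalTree (V : Type) where
  /-- the level of a vertex -/
  lev : V → ℕ
  /-- the parent of a vertex; by convention the root is its own parent -/
  par : V → V
  /-- the root -/
  root : V
  /-- the number of children of the vertices of level `n` -/
  deg : ℕ → ℕ
  lev_eq_zero : ∀ v, lev v = 0 ↔ v = root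
  par_root : par root = root
  lev_par : ∀ v, v ≠ root → lev (par v) + 1 = lev v
  two_le_deg : ∀ n, 2 ≤ deg n
  card_children : ∀ v, Nat.card {w : V // w ≠ root ∧ par w = v} = deg (lev v)

/-- `w` lies in the subtree rooted at `v`. -/
def SphericalTree.Below {V : Type} (T : SphericalTree V) (v w : V) : Prop :=
  ∃ k : ℕ, T.par^[k] w = v

/-- The rigid stabilizer of `v`: the elements fixing every vertex outside the subtree rooted
at `v`. -/
def SphericalTree.rist {V : Type} (T : SphericalTree V) (G : Type) [Group G] [MulAction G V]
    (v : V) : Subgroup G where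
  carrier := {g | ∀ w, ¬ T.Below v w → g • w = w}
  one_mem' := fun w _ => one_smul G w
  mul_mem' := fun {a b} ha hb w hw => by rw [mul_smul, hb w hw, ha w hw]
  inv_mem' := fun {a} ha w hw => by rw [inv_smul_eq_iff, ha w hw]

/-- The action of `G` on the tree makes `G` a branch group: it is a faithful action by tree
automorphisms, transitive on every level, and for every `n` the subgroup generated by the rigid
stabilizers of the vertices of level `n` has finite index. -/
structure IsBranchAction {V : Type} (T : SphericalTree V) (G : Type) [Group G] [MulAction G V] :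
    Prop where
  lev_smul : ∀ (g : G) (v : V), T.lev (g • v) = T.lev v
  par_smul : ∀ (g : G) (v : V), T.par (g • v) = g • T.par v
  faithful : ∀ g : G, (∀ v : V, g • v = v) → g = 1
  transitive : ∀ v w : V, T.lev v = T.lev w → ∃ g : G, g • v = w
  rist_index : ∀ n : ℕ, (⨆ v : {v : V // T.lev v = n}, T.rist G v.1).FiniteIndex

/-- Infinite, with all proper quotients finite. -/
def JustInfinite (G : Type) [Group G] : Prop :=
  Infinite G ∧ ∀ N : Subgroup G, N.Normal → N ≠ ⊥ → N.FiniteIndex

/-- `G ⪰ H`: a finite index subgroup of `G` maps onto the quotient of a finite index subgroup of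
`H` by a finite normal subgroup. -/
def Larger (G H : Type) [Group G] [Group H] : Prop :=
  ∃ (G0 : Subgroup G) (H0 : Subgroup H) (N : Subgroup H0) (_ : N.Normal),
    G0.FiniteIndex ∧ H0.FiniteIndex ∧ Finite N ∧
      ∃ φ : G0 →* H0 ⧸ N, Function.Surjective φ

/-- `G` is minimal: it is infinite and every `H` with `G ⪰ H` is finite or satisfies `H ⪰ G`. -/
def IsMinimal (G : Type) [Group G] : Prop :=
  Infinite G ∧ ∀ (H : Type) [Group H], Larger G H → Finite H ∨ Larger H G

/-- `G` and `H` are abstractly commensurable: they have isomorphic subgroups of finite index. -/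
def Commensurable (G H : Type) [Group G] [Group H] : Prop :=
  ∃ (A : Subgroup G) (B : Subgroup H), A.FiniteIndex ∧ B.FiniteIndex ∧ Nonempty (A ≃* B)

end Pool.Agent.Helper581.Min
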