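import Pool.Agent.Helper581.Min.Tree

set_option autoImplicit false

namespace Pool.Agent.Helper581.Min

open scoped commutatorElement

variable {V : Type} {T : SphericalTree V} {G : Type} [Group G] [MulAction G V]

namespace IsBranchAction

variable (hB : IsBranchAction T G)

include hB

/-- the subgroup generated by subgroups of the rigid stabilizers as a product -/
theorem iSup_finite {n : ℕ} (H : {v : V // T.lev v = n} → Subgroup G)
    (hH : ∀ i, H i ≤ T.rist G i.1) (hf : ∀ i, Finite (H i)) : Finite (⨆ i, H i : Subgroup G) := by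
  classical
  have : Fintype {v : V // T.lev v = n} := Fintype.ofFinite _
  have hc : Pairwise fun i j => ∀ x y : G, x ∈ H i → y ∈ H j → Commute x y := by
    intro i j hij x y hx hy
    exact hB.rist_comm (fun h => hij (Subtype.ext h)) (i.2.trans j.2.symm) (hH i hx) (hH j hy)
  rw [← Subgroup.noncommPiCoprod_range (hcomm := hc)]
  exact Finite.of_surjective _ (Subgroup.noncommPiCoprod hc).rangeRestrict_surjective

theorem conj_map_rist (g : G) (v : V) :
    (T.rist G v).map (MulAut.conj g).toMonoidHom = T.rist G (g • v) := by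
  apply le_antisymm
  · rintro _ ⟨x, hx, rfl⟩
    exact hB.conj_mem_rist hx g
  · intro y hy
    refine ⟨g⁻¹ * y * g, ?_, ?_⟩
    · have := hB.conj_mem_rist hy g⁻¹
      rwa [inv_smul_smul, inv_inv] at this
    · change g * (g⁻¹ * y * g) * g⁻¹ = y
      group

theorem rist_infinite (hG : Infinite G) (v : V) : Infinite (T.rist G v) := by
  by_contra h
  rw [not_infinite_iff_finite] at h
  have h1 : ∀ i : {w : V // T.lev w = T.lev v}, Finite (T.rist G i.1) := by
    rintro ⟨w, hw⟩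
    obtain ⟨g, rfl⟩ := hB.transitive v w hw.symm
    have h2 := hB.conj_map_rist g v
    have h3 : ((T.rist G (g • v) : Subgroup G) : Set G).Finite := by
      rw [← h2, Subgroup.coe_map]
      exact (Set.toFinite _).image _
    exact h3
  have h2 := hB.iSup_finite (fun i => T.rist G i.1) (fun _ => le_rfl) h1
  have h3 := hB.rist_index (T.lev v)
  have h4 : Finite G := by
    have h5 : Finite (G ⧸ (⨆ i : {w : V // T.lev w = T.lev v}, T.rist G i.1)) :=
      Subgroup.finite_quotient_of_finiteIndex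
    exact Finite.of_equiv _ (Subgroup.groupEquivQuotientProdSubgroup
      (s := (⨆ i : {w : V // T.lev w = T.lev v}, T.rist G i.1))).symm
  exact (not_finite_iff_infinite.2 hG) h4

theorem rist_inf_ne_one (hG : Infinite G) (v : V) (G1 : Subgroup G) (h1 : G1.FiniteIndex) :
    ∃ g ∈ T.rist G v ⊓ G1, g ≠ 1 := by
  have h2 := hB.rist_infinite hG v
  by_contra h
  push Not at h
  have h3 : (G1.subgroupOf (T.rist G v)).FiniteIndex := inferInstance
  have h4 : G1.subgroupOf (T.rist G v) = ⊥ := by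
    rw [eq_bot_iff]
    intro x hx
    rw [Subgroup.mem_bot]
    ext
    exact h x.1 ⟨x.2, hx⟩
  rw [h4] at h3
  have h5 : Finite (T.rist G v) := by
    have := h3.index_ne_zero
    rw [Subgroup.index_bot] at this
    exact Nat.finite_of_card_ne_zero this
  exact (not_finite_iff_infinite.2 h2) h5

theorem exists_noncomm (hG : Infinite G) (v : V) (G1 : Subgroup G) (h1 : G1.FiniteIndex) :
    ∃ g ∈ T.rist G v ⊓ G1, ∃ h ∈ T.rist G v ⊓ G1, ⁅g, h⁆ ≠ 1 := by
  obtain ⟨g, hg, hg1⟩ := hB.rist_inf_ne_one hG v G1 h1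
  have h2 : ∃ w : V, g • w ≠ w := by
    by_contra hc
    push Not at hc
    exact hg1 (hB.faithful g hc)
  obtain ⟨w, hw⟩ := h2
  have hvw : T.Below v w := by
    by_contra hc
    exact hw (hg.1 w hc)
  obtain ⟨h, hh, hh1⟩ := hB.rist_inf_ne_one hG w G1 h1
  refine ⟨g, hg, h, ⟨rist_mono hvw hh.1, hh.2⟩, ?_⟩
  intro hc
  rw [commutatorElement_eq_one_iff_mul_comm] at hc
  exact hB.not_comm hw hh.1 hh1 hc

/-- Grigorchuk's commutator lemma -/
theorem comm_le {K G1 : Subgroup G} (hK : ∀ g ∈ G1, ∀ k ∈ K, g * k * g⁻¹ ∈ K) {v : V}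
    {x : G} (hx : x ∈ K) (hxv : x • v ≠ v) :
    ⁅T.rist G v ⊓ G1, T.rist G v ⊓ G1⁆ ≤ K := by
  rw [Subgroup.commutator_le]
  intro a ha b hb
  have e0 : x * a⁻¹ * x⁻¹ ∈ T.rist G (x • v) := hB.conj_mem_rist (inv_mem ha.1) x
  have hl : T.lev v = T.lev (x • v) := (hB.lev_smul x v).symm
  have c1 : b * (x * a⁻¹ * x⁻¹) = (x * a⁻¹ * x⁻¹) * b := hB.rist_comm (Ne.symm hxv) hl hb.1 e0
  have hy : a * x * a⁻¹ * x⁻¹ ∈ K := mul_mem (hK a ha.2 x hx) (inv_mem hx)
  have h2 : (a * x * a⁻¹ * x⁻¹) * (b * (a * x * a⁻¹ * x⁻¹)⁻¹ * b⁻¹) ∈ K :=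
    mul_mem hy (hK b hb.2 _ (inv_mem hy))
  have h3 : (a * x * a⁻¹ * x⁻¹) * (b * (a * x * a⁻¹ * x⁻¹)⁻¹ * b⁻¹) = ⁅a, b⁆ := by
    rw [commutatorElement_def]
    set z := x * a⁻¹ * x⁻¹ with hz
    have e1 : a * x * a⁻¹ * x⁻¹ = a * z := by rw [hz]; group
    rw [e1]
    calc a * z * (b * (a * z)⁻¹ * b⁻¹) = a * (z * b) * z⁻¹ * a⁻¹ * b⁻¹ := by group
      _ = a * (b * z) * z⁻¹ * a⁻¹ * b⁻¹ := by rw [c1]
      _ = a * b * a⁻¹ * b⁻¹ := by group
  rw [← h3]
  exact h2

/-- the derived subgroups of the rigid stabilizers generate a subgroup of finite index -/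
theorem derived_finiteIndex (hJ : JustInfinite G) {G1 : Subgroup G} (hn : G1.Normal)
    (h1 : G1.FiniteIndex) (n : ℕ) :
    (⨆ i : {v : V // T.lev v = n}, ⁅T.rist G i.1 ⊓ G1, T.rist G i.1 ⊓ G1⁆).FiniteIndex := by
  set Q : Subgroup G := ⨆ i : {v : V // T.lev v = n}, ⁅T.rist G i.1 ⊓ G1, T.rist G i.1 ⊓ G1⁆
    with hQ
  have hQn : Q.Normal := by
    constructor
    intro q hq g
    have h2 : Q.map (MulAut.conj g).toMonoidHom ≤ Q := by
      rw [hQ, Subgroup.map_iSup]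
      apply iSup_le
      rintro ⟨v, hv⟩
      have h3 : (T.rist G v ⊓ G1).map (MulAut.conj g).toMonoidHom ≤ T.rist G (g • v) ⊓ G1 := by
        rintro _ ⟨y, hy, rfl⟩
        exact ⟨hB.conj_mem_rist hy.1 g, hn.conj_mem y hy.2 g⟩
      rw [Subgroup.map_commutator]
      refine (Subgroup.commutator_mono h3 h3).trans ?_
      exact le_iSup (fun i : {v : V // T.lev v = n} =>
        ⁅T.rist G i.1 ⊓ G1, T.rist G i.1 ⊓ G1⁆) ⟨g • v, by rw [hB.lev_smul, hv]⟩
    exact h2 ⟨q, hq, rfl⟩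
  have hQ1 : Q ≠ ⊥ := by
    intro hc
    obtain ⟨v, -, hv⟩ := T.exists_anc (T.exists_desc T.root n).choose (n := n)
      (by have := (T.exists_desc T.root n).choose_spec.2; omega)
    obtain ⟨g, hg, h, hh, hne⟩ := hB.exists_noncomm hJ.1 v G1 h1
    apply hne
    have h2 : ⁅g, h⁆ ∈ Q := by
      have h3 : ⁅T.rist G v ⊓ G1, T.rist G v ⊓ G1⁆ ≤ Q :=
        le_iSup (fun i : {v : V // T.lev v = n} =>
          ⁅T.rist G i.1 ⊓ G1, T.rist G i.1 ⊓ G1⁆) ⟨v, hv⟩
      exact h3 (Subgroup.commutator_mem_commutator hg hh)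
    rw [hc, Subgroup.mem_bot] at h2
    exact h2
  exact hJ.2 Q hQn hQ1

/-- If `K` is normalised by a normal subgroup `G1` of finite index and moves every vertex of one
level, then `K` has finite index. -/
theorem finiteIndex_of_moves (hJ : JustInfinite G) {K G1 : Subgroup G} (hn : G1.Normal)
    (h1 : G1.FiniteIndex) (hK : ∀ g ∈ G1, ∀ k ∈ K, g * k * g⁻¹ ∈ K) (n : ℕ)
    (hm : ∀ v, T.lev v = n → ∃ x ∈ K, x • v ≠ v) : K.FiniteIndex := by
  have := hB.derived_finiteIndex hJ hn h1 n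
  refine Subgroup.finiteIndex_of_le
    (H := ⨆ i : {v : V // T.lev v = n}, ⁅T.rist G i.1 ⊓ G1, T.rist G i.1 ⊓ G1⁆) ?_
  apply iSup_le
  rintro ⟨v, hv⟩
  obtain ⟨x, hx, hxv⟩ := hm v hv
  exact hB.comm_le hK hx hxv

end IsBranchAction

end Pool.Agent.Helper581.Min
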