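import Pool.Agent.Helper581.Min.Just

set_option autoImplicit false

namespace Pool.Agent.Helper581.Min

variable {V : Type} {T : SphericalTree V} {G : Type} [Group G] [MulAction G V]

namespace IsBranchAction

variable (hB : IsBranchAction T G)

include hB

theorem fix_anc {g : G} {v w : V} (h : T.Below v w) (hg : g • w = w) : g • v = v := by
  have h1 := (hB.below_smul g v w).2 h
  rw [hg] at h1
  exact h1.unique h (hB.lev_smul g v)

theorem exists_stable (G1 : Subgroup G) (hn : G1.Normal) (h1 : G1.FiniteIndex) :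
    ∃ n : ℕ, ∀ v, T.lev v = n → ∀ w w', T.Below v w → T.Below v w' → T.lev w = T.lev w' →
      ∃ g ∈ G1, g • w = w' := by
  let f : V → ℕ := fun v => G1.index - (G1 ⊔ MulAction.stabilizer G v).index
  have hne : Nonempty V := ⟨T.root⟩
  set v0 : V := Function.argmin f with hv0
  have hmin : ∀ v, f v0 ≤ f v := fun v => Function.argmin_le f v
  have hbd : ∀ v : V, (G1 ⊔ MulAction.stabilizer G v).index ≤ G1.index := fun v =>
    Subgroup.index_antitone le_sup_left
  have key : ∀ w w', T.Below v0 w → T.Below v0 w' → T.lev w = T.lev w' →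
      ∃ g ∈ G1, g • w = w' := by
    intro w w' hw hw' hl
    have hst : MulAction.stabilizer G w ≤ MulAction.stabilizer G v0 := by
      intro g hg
      exact hB.fix_anc hw hg
    have hle : G1 ⊔ MulAction.stabilizer G w ≤ G1 ⊔ MulAction.stabilizer G v0 :=
      sup_le_sup_left hst G1
    have hi := Subgroup.relIndex_mul_index hle
    have hm := hmin w
    have hb1 := hbd w
    have hb2 := hbd v0
    have hfw : (G1 ⊔ MulAction.stabilizer G w).FiniteIndex :=
      Subgroup.finiteIndex_of_le (H := G1) le_sup_left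
    have hle2 : (G1 ⊔ MulAction.stabilizer G v0).index ≤ (G1 ⊔ MulAction.stabilizer G w).index :=
      Subgroup.index_antitone hle
    have heq : (G1 ⊔ MulAction.stabilizer G w).index = (G1 ⊔ MulAction.stabilizer G v0).index := by
      simp only [f] at hm
      omega
    have hfi : (G1 ⊔ MulAction.stabilizer G v0).FiniteIndex :=
      Subgroup.finiteIndex_of_le (H := G1) le_sup_left
    have hrel : (G1 ⊔ MulAction.stabilizer G w).relIndex (G1 ⊔ MulAction.stabilizer G v0) = 1 := by
      rw [heq] at hi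
      have := hfi.index_ne_zero
      exact Nat.eq_of_mul_eq_mul_right (Nat.pos_of_ne_zero this) (by rw [hi, one_mul])
    rw [Subgroup.relIndex_eq_one] at hrel
    obtain ⟨g, hg⟩ := hB.transitive w w' hl
    have hgv : g ∈ MulAction.stabilizer G v0 := by
      have h2 := (hB.below_smul g v0 w).2 hw
      rw [hg] at h2
      exact h2.unique hw' (hB.lev_smul g v0)
    have h3 : g ∈ G1 ⊔ MulAction.stabilizer G w := hrel (Subgroup.mem_sup_right hgv)
    rw [← SetLike.mem_coe, Subgroup.normal_mul, Set.mem_mul] at h3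
    obtain ⟨g1, hg1, s, hs, rfl⟩ := h3
    refine ⟨g1, hg1, ?_⟩
    rw [← hg, mul_smul, MulAction.mem_stabilizer_iff.1 hs]
  refine ⟨T.lev v0, ?_⟩
  intro v hv w w' hw hw' hl
  obtain ⟨h, rfl⟩ := hB.transitive v0 v hv.symm
  have h1 : T.Below v0 (h⁻¹ • w) := by
    rw [← hB.below_smul h, smul_inv_smul]; exact hw
  have h2 : T.Below v0 (h⁻¹ • w') := by
    rw [← hB.below_smul h, smul_inv_smul]; exact hw'
  obtain ⟨g, hg, hgw⟩ := key _ _ h1 h2 (by rw [hB.lev_smul, hB.lev_smul, hl])
  refine ⟨h * g * h⁻¹, hn.conj_mem g hg h, ?_⟩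
  rw [mul_smul, mul_smul, hgw, smul_inv_smul]

/-- A subgroup of infinite index normalised by a subgroup of finite index fixes a whole
subtree pointwise. -/
theorem exists_fixed (hJ : JustInfinite G) {K G1 : Subgroup G} (hn : G1.Normal)
    (h1 : G1.FiniteIndex) (hK : ∀ g ∈ G1, ∀ k ∈ K, g * k * g⁻¹ ∈ K) (hKi : ¬ K.FiniteIndex) :
    ∃ v : V, ∀ w, T.Below v w → ∀ x ∈ K, x • w = w := by
  obtain ⟨n, hst⟩ := hB.exists_stable G1 hn h1
  by_contra hc
  push Not at hc
  apply hKi
  choose f hf using hc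
  obtain ⟨m, hm⟩ := (Set.finite_range fun i : {v : V // T.lev v = n} => T.lev (f i.1)).bddAbove
  refine hB.finiteIndex_of_moves hJ hn h1 hK (max m n) ?_
  intro w hw
  obtain ⟨u, huw, hul⟩ := T.exists_anc w (n := n) (by rw [hw]; exact le_max_right _ _)
  obtain ⟨hfu, x, hx, hxf⟩ := hf u
  have hlf : T.lev (f u) ≤ m := hm ⟨⟨u, hul⟩, rfl⟩
  obtain ⟨w', hw1, hw2, hw3⟩ := T.exists_between huw (n := T.lev (f u)) hfu.lev_le
    (by rw [hw]; exact le_trans hlf (le_max_left _ _))
  obtain ⟨g, hg, hgw⟩ := hst u hul (f u) w' hfu hw1 hw3.symm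
  refine ⟨g * x * g⁻¹, hK g hg x hx, ?_⟩
  intro hfix
  have h2 := hB.fix_anc hw2 hfix
  rw [← hgw, mul_smul, mul_smul, inv_smul_smul] at h2
  exact hxf (MulAction.injective g h2)

/-- `rist v * fixer v` -/
def prodSub (v : V) : Subgroup G where
  carrier := {g | ∃ r ∈ T.rist G v, ∃ c ∈ hB.fixer v, g = r * c}
  one_mem' := ⟨1, one_mem _, 1, one_mem _, by simp⟩
  mul_mem' := by
    rintro _ _ ⟨r, hr, c, hc, rfl⟩ ⟨r', hr', c', hc', rfl⟩
    refine ⟨r * r', mul_mem hr hr', c * c', mul_mem hc hc', ?_⟩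
    have := hB.rist_fixer_comm hr' hc
    calc r * c * (r' * c') = r * (c * r') * c' := by group
      _ = r * (r' * c) * c' := by rw [this]
      _ = r * r' * (c * c') := by group
  inv_mem' := by
    rintro _ ⟨r, hr, c, hc, rfl⟩
    refine ⟨r⁻¹, inv_mem hr, c⁻¹, inv_mem hc, ?_⟩
    rw [mul_inv_rev]
    exact (hB.rist_fixer_comm (inv_mem hr) (inv_mem hc)).symm

theorem prodSub_finiteIndex (v : V) : (hB.prodSub v).FiniteIndex := by
  have h := hB.rist_index (T.lev v)
  have hle : (⨆ u : {u : V // T.lev u = T.lev v}, T.rist G u.1) ≤ hB.prodSub v := by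
    apply iSup_le
    rintro ⟨u, hu⟩ g hg
    by_cases huv : u = v
    · subst huv
      exact ⟨g, hg, 1, one_mem _, by simp⟩
    · exact ⟨1, one_mem _, g, hB.rist_le_fixer (Ne.symm huv) hu.symm hg, by simp⟩
  exact Subgroup.finiteIndex_of_le hle

theorem larger_rist (v : V) : Larger G (T.rist G v) := by
  apply larger_of_corr
  let D : Subgroup (G × T.rist G v) :=
    { carrier := {x | ∃ c ∈ hB.fixer v, x.1 = x.2.1 * c}
      one_mem' := ⟨1, one_mem _, by simp⟩
      mul_mem' := by
        rintro ⟨g, r⟩ ⟨g', r'⟩ ⟨c, hc, h⟩ ⟨c', hc', h'⟩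
        refine ⟨c * c', mul_mem hc hc', ?_⟩
        change g = r * c at h
        change g' = r' * c' at h'
        change g * g' = (r.1 * r'.1) * (c * c')
        have := hB.rist_fixer_comm r'.2 hc
        rw [h, h']
        calc r.1 * c * (r'.1 * c') = r.1 * (c * r'.1) * c' := by group
          _ = r.1 * (r'.1 * c) * c' := by rw [this]
          _ = r.1 * r'.1 * (c * c') := by group
      inv_mem' := by
        rintro ⟨g, r⟩ ⟨c, hc, h⟩
        refine ⟨c⁻¹, inv_mem hc, ?_⟩
        change g = r * c at h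
        change g⁻¹ = r.1⁻¹ * c⁻¹
        rw [h, mul_inv_rev]
        exact (hB.rist_fixer_comm (inv_mem r.2) (inv_mem hc)).symm }
  refine ⟨D, ?_, ?_, ?_⟩
  · have h := hB.prodSub_finiteIndex v
    have hle : hB.prodSub v ≤ D.map (MonoidHom.fst G (T.rist G v)) := by
      rintro g ⟨r, hr, c, hc, hg⟩
      exact ⟨(g, ⟨r, hr⟩), ⟨c, hc, hg⟩, rfl⟩
    exact Subgroup.finiteIndex_of_le hle
  · have : D.map (MonoidHom.snd G (T.rist G v)) = ⊤ := by
      rw [eq_top_iff]
      intro r _
      exact ⟨(r.1, r), ⟨1, one_mem _, by simp⟩, rfl⟩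
    rw [this]
    infer_instance
  · refine (Set.finite_singleton (1 : T.rist G v)).subset ?_
    rintro r ⟨c, hc, h⟩
    change (1 : G) = r.1 * c at h
    have h2 : r.1 = c⁻¹ := (mul_eq_one_iff_eq_inv.1 h.symm)
    have h3 : r.1 = 1 := hB.rist_inf_fixer r.2 (by rw [h2]; exact inv_mem hc)
    exact Subtype.ext h3

/-- The criterion. -/
theorem minimal_iff (hJ : JustInfinite G) :
    IsMinimal G ↔ ∀ v : V, Larger (T.rist G v) G := by
  constructor
  · rintro ⟨-, h⟩ v
    rcases h (T.rist G v) (hB.larger_rist v) with h1 | h1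
    · exact absurd h1 (not_finite_iff_infinite.2 (hB.rist_infinite hJ.1 v))
    · exact h1
  · intro h
    refine ⟨hJ.1, ?_⟩
    intro H _ hGH
    by_cases hH : Finite H
    · exact Or.inl hH
    refine Or.inr (larger_of_corr ?_)
    obtain ⟨D, d1, d2, d3⟩ := corr_of_larger hGH
    let K : Subgroup G := D.comap (MonoidHom.inl G H)
    have hKmem : ∀ g, g ∈ K ↔ (g, (1 : H)) ∈ D := fun g => Iff.rfl
    let G1 : Subgroup G := (D.map (MonoidHom.fst G H)).normalCore
    have hG1 : G1 ≤ D.map (MonoidHom.fst G H) := Subgroup.normalCore_le _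
    have hK : ∀ g ∈ G1, ∀ k ∈ K, g * k * g⁻¹ ∈ K := by
      intro g hg k hk
      obtain ⟨⟨g', h'⟩, hd, rfl⟩ := hG1 hg
      have := D.mul_mem (D.mul_mem hd hk) (D.inv_mem hd)
      rw [hKmem]
      simpa using this
    have hKi : ¬ K.FiniteIndex := by
      intro hKf
      apply hH
      have hM := comap_finiteIndex (MonoidHom.fst G H) K hKf
      have h3 := map_inf_finiteIndex D (MonoidHom.snd G H) _ hM d2
      have h4 : (((D ⊓ K.comap (MonoidHom.fst G H)).map (MonoidHom.snd G H) :
          Subgroup H) : Set H).Finite := by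
        refine d3.subset ?_
        rintro _ ⟨⟨k, h⟩, ⟨hd, hk⟩, rfl⟩
        have h5 : (k, (1 : H)) ∈ D := hk
        have := D.mul_mem (D.inv_mem h5) hd
        change ((1 : G), h) ∈ D
        simpa using this
      have h5 : Finite ((D ⊓ K.comap (MonoidHom.fst G H)).map (MonoidHom.snd G H)) := h4
      have h6 : Finite (H ⧸ (D ⊓ K.comap (MonoidHom.fst G H)).map (MonoidHom.snd G H)) :=
        Subgroup.finite_quotient_of_finiteIndex
      exact Finite.of_equiv _ (Subgroup.groupEquivQuotientProdSubgroup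
        (s := (D ⊓ K.comap (MonoidHom.fst G H)).map (MonoidHom.snd G H))).symm
    obtain ⟨v, hv⟩ := hB.exists_fixed hJ inferInstance inferInstance hK hKi
    refine Corr.trans (H := T.rist G v) ?_ (corr_of_larger (h v))
    let E : Subgroup (H × T.rist G v) :=
      { carrier := {x | ∃ c ∈ hB.fixer v, (x.2.1 * c, x.1) ∈ D}
        one_mem' := ⟨1, one_mem _, by
          change ((1 : G) * 1, (1 : H)) ∈ D
          rw [mul_one]
          exact D.one_mem⟩
        mul_mem' := by
          rintro ⟨x, r⟩ ⟨x', r'⟩ ⟨c, hc, h⟩ ⟨c', hc', h'⟩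
          refine ⟨c * c', mul_mem hc hc', ?_⟩
          have h2 := D.mul_mem h h'
          have h3 := hB.rist_fixer_comm r'.2 hc
          have h4 : r.1 * c * (r'.1 * c') = r.1 * r'.1 * (c * c') := by
            calc r.1 * c * (r'.1 * c') = r.1 * (c * r'.1) * c' := by group
              _ = r.1 * (r'.1 * c) * c' := by rw [h3]
              _ = r.1 * r'.1 * (c * c') := by group
          change (r.1 * r'.1 * (c * c'), x * x') ∈ D
          rw [← h4]
          exact h2
        inv_mem' := by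
          rintro ⟨x, r⟩ ⟨c, hc, h⟩
          refine ⟨c⁻¹, inv_mem hc, ?_⟩
          have h2 := D.inv_mem h
          have h3 := hB.rist_fixer_comm (inv_mem r.2) (inv_mem hc)
          change (r.1⁻¹ * c⁻¹, x⁻¹) ∈ D
          rw [h3, ← mul_inv_rev]
          exact h2 }
    refine ⟨E, ?_, ?_, ?_⟩
    · have hM := comap_finiteIndex (MonoidHom.fst G H) _ (hB.prodSub_finiteIndex v)
      have h3 := map_inf_finiteIndex D (MonoidHom.snd G H) _ hM d2
      refine Subgroup.finiteIndex_of_le (h := ?_)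
        (K := E.map (MonoidHom.fst H (T.rist G v)))
        (H := (D ⊓ (hB.prodSub v).comap (MonoidHom.fst G H)).map (MonoidHom.snd G H))
      rintro _ ⟨⟨g, x⟩, ⟨hd, hg⟩, rfl⟩
      obtain ⟨r, hr, c, hc, hgr⟩ := hg
      change g = r * c at hgr
      subst hgr
      exact ⟨(x, ⟨r, hr⟩), ⟨c, hc, hd⟩, rfl⟩
    · have h3 := comap_finiteIndex (T.rist G v).subtype _ d1
      refine Subgroup.finiteIndex_of_le (h := ?_)
        (K := E.map (MonoidHom.snd H (T.rist G v)))
        (H := (D.map (MonoidHom.fst G H)).comap (T.rist G v).subtype)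
      rintro r ⟨⟨g, x⟩, hd, hg⟩
      change g = r.1 at hg
      subst hg
      exact ⟨(x, r), ⟨1, one_mem _, by simpa using hd⟩, rfl⟩
    · refine (Set.finite_singleton (1 : T.rist G v)).subset ?_
      rintro r ⟨c, hc, hd⟩
      have h2 : r.1 * c ∈ hB.fixer v := fun w hw => hv w hw _ hd
      have h3 : r.1 ∈ hB.fixer v := by
        have := mul_mem h2 (inv_mem hc)
        simpa using this
      exact Subtype.ext (hB.rist_inf_fixer r.2 h3)

end IsBranchAction

end Pool.Agent.Helper581.Min
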