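import Pool.Agent.Helper581.Min.RegDefs
import Pool.Agent.Helper581.Min.Main

set_option autoImplicit false

namespace Pool.Agent.Helper581.Min

open Equiv

variable {k : ℕ}

@[simp] theorem nodeR_nil (s : Fin k → Perm (Words k)) : nodeR s [] = [] := rfl

@[simp] theorem nodeR_cons (s : Fin k → Perm (Words k)) (x : Fin k) (v : Words k) :
    nodeR s (x :: v) = x :: s x v := rfl

theorem nodeR_injective : Function.Injective (nodeR : (Fin k → Perm (Words k)) →* _) := by
  intro s t h
  funext x
  ext v : 1
  have := congrArg (fun g : Perm (Words k) => g (x :: v)) h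
  simpa using this

/-- acts as `g` below the letter `x` -/
def dlR (x : Fin k) : Perm (Words k) →* Perm (Words k) :=
  nodeR.comp (MonoidHom.mulSingle (fun _ : Fin k => Perm (Words k)) x)

theorem dlR_eq (x : Fin k) (g : Perm (Words k)) : dlR x g = nodeR (Pi.mulSingle x g) := rfl

theorem dlR_cons_same (x : Fin k) (g : Perm (Words k)) (v : Words k) :
    dlR x g (x :: v) = x :: g v := by
  simp [dlR_eq]

theorem dlR_cons_ne {x y : Fin k} (h : y ≠ x) (g : Perm (Words k)) (v : Words k) :
    dlR x g (y :: v) = y :: v := by
  simp [dlR_eq, h]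

/-- acts as `g` below the vertex `v` -/
def dpR : Words k → Perm (Words k) →* Perm (Words k)
  | [] => MonoidHom.id _
  | x :: v => (dlR x).comp (dpR v)

theorem dpR_append (v : Words k) (g : Perm (Words k)) (u : Words k) :
    dpR v g (v ++ u) = v ++ g u := by
  induction v with
  | nil => rfl
  | cons x v ih =>
    change dlR x (dpR v g) (x :: (v ++ u)) = _
    rw [dlR_cons_same, ih]
    rfl

theorem dpR_not_prefix (v : Words k) (g : Perm (Words k)) :
    ∀ w : Words k, ¬ v <+: w → dpR v g w = w := by
  induction v with
  | nil => intro w h; exact absurd (List.nil_prefix) h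
  | cons x v ih =>
    intro w h
    cases w with
    | nil => rfl
    | cons y w =>
      by_cases hxy : y = x
      · subst hxy
        change dlR y (dpR v g) (y :: w) = _
        rw [dlR_cons_same, ih w (fun hc => h ((List.prefix_cons_inj y).2 hc))]
      · exact dlR_cons_ne hxy _ _

/-- The `k`-ary tree. -/
def treeR (k : ℕ) (hk : 2 ≤ k) : SphericalTree (Words k) where
  lev := List.length
  par := List.dropLast
  root := []
  deg := fun _ => k
  lev_eq_zero := fun v => List.length_eq_zero_iff
  par_root := rfl
  lev_par := fun v hv => by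
    have := List.length_pos_iff.2 hv
    rw [List.length_dropLast]
    omega
  two_le_deg := fun _ => hk
  card_children := fun v => by
    have e : {w : Words k // w ≠ [] ∧ w.dropLast = v} ≃ Fin k :=
      { toFun := fun w => w.1.getLast w.2.1
        invFun := fun x => ⟨v ++ [x], by simp, by simp⟩
        left_inv := fun w => by
          obtain ⟨w, hw, rfl⟩ := w
          ext1
          exact List.dropLast_append_getLast hw
        right_inv := fun x => by simp }
    rw [Nat.card_congr e]
    simp

theorem dropLast_iterate_append' (v u : Words k) : List.dropLast^[u.length] (v ++ u) = v := by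
  induction u using List.reverseRecOn with
  | nil => simp
  | append_singleton u x ih =>
    rw [List.length_append, List.length_singleton, Function.iterate_succ_apply]
    rw [← List.append_assoc, List.dropLast_concat]
    exact ih

theorem dropLast_iterate_prefix (v : Words k) (n : ℕ) : List.dropLast^[n] v <+: v := by
  induction n with
  | zero => exact List.prefix_rfl
  | succ n ih =>
    rw [Function.iterate_succ_apply']
    exact (List.dropLast_prefix _).trans ih

theorem belowR_iff (hk : 2 ≤ k) (v w : Words k) : (treeR k hk).Below v w ↔ v <+: w := by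
  constructor
  · rintro ⟨n, rfl⟩
    exact dropLast_iterate_prefix w n
  · rintro ⟨u, rfl⟩
    exact ⟨u.length, dropLast_iterate_append' v u⟩

variable {G K : Subgroup (Perm (Words k))}

namespace IsRegularBranch

variable (hR : IsRegularBranch k G K)

include hR

theorem length_eq (v : Words k) : ∀ {g : Perm (Words k)}, g ∈ G → (g v).length = v.length := by
  induction v with
  | nil => intro g hg; rw [hR.map_nil g hg]
  | cons x v ih =>
    intro g hg
    obtain ⟨y, s, hs, h⟩ := hR.self_similar g hg x
    rw [h, List.length_cons, List.length_cons, ih hs]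

theorem dropLast_eq (v : Words k) : ∀ {g : Perm (Words k)}, g ∈ G →
    (g v).dropLast = g v.dropLast := by
  induction v with
  | nil => intro g hg; simp [hR.map_nil g hg]
  | cons x v ih =>
    intro g hg
    obtain ⟨y, s, hs, h⟩ := hR.self_similar g hg x
    rw [h]
    cases v with
    | nil =>
      rw [hR.map_nil s hs]
      simp [hR.map_nil g hg]
    | cons z v =>
      have h1 : s (z :: v) ≠ [] := by
        intro hc
        have := hR.length_eq (z :: v) hs
        rw [hc] at this
        simp at this
      have h2 : (x :: z :: v).dropLast = x :: (z :: v).dropLast := rfl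
      rw [List.dropLast_cons_of_ne_nil h1, ih hs, h2, h]

theorem path (v : Words k) : ∀ {g : Perm (Words k)}, g ∈ G →
    ∃ (w : Words k) (s : Perm (Words k)), w.length = v.length ∧ s ∈ G ∧
      ∀ u : Words k, g (v ++ u) = w ++ s u := by
  induction v with
  | nil => intro g hg; exact ⟨[], g, rfl, hg, fun u => rfl⟩
  | cons x v ih =>
    intro g hg
    obtain ⟨y, s, hs, h⟩ := hR.self_similar g hg x
    obtain ⟨w, t, hw, ht, h2⟩ := ih hs
    refine ⟨y :: w, t, by simp [hw], ht, ?_⟩
    intro u
    rw [List.cons_append, h, h2]
    rfl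

theorem path_fix {g : Perm (Words k)} (hg : g ∈ G) {v : Words k} (hv : g v = v) :
    ∃ s ∈ G, ∀ u : Words k, g (v ++ u) = v ++ s u := by
  obtain ⟨w, s, hw, hs, h⟩ := hR.path v hg
  refine ⟨s, hs, ?_⟩
  have h1 := h []
  rw [List.append_nil, hv, hR.map_nil s hs, List.append_nil] at h1
  intro u
  rw [h u, ← h1]

omit hR in
/-- `K` acting independently on all subtrees of level `n` -/
def KK (K : Subgroup (Perm (Words k))) : ℕ → Subgroup (Perm (Words k))
  | 0 => K
  | n + 1 => (Subgroup.pi Set.univ fun _ : Fin k => KK K n).map nodeR

theorem KK_le (n : ℕ) : KK K n ≤ K := by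
  induction n with
  | zero => exact le_rfl
  | succ n ih =>
    refine le_trans (Subgroup.map_mono ?_) hR.pow_le
    intro s hs x hx
    exact ih (hs x hx)

theorem KK_index (n : ℕ) : (KK K n).relIndex K ≠ 0 := by
  induction n with
  | zero => simp [KK]
  | succ n ih =>
    refine Subgroup.relIndex_ne_zero_trans (K := (Subgroup.pi Set.univ fun _ : Fin k => K).map nodeR)
      ?_ hR.pow_index
    change ((Subgroup.pi Set.univ fun _ : Fin k => KK K n).map nodeR).relIndex _ ≠ 0
    rw [Subgroup.relIndex_map_map_of_injective _ _ nodeR_injective]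
    have h1 : (Subgroup.pi Set.univ fun _ : Fin k => KK K n) =
        ⨅ x : Fin k, (KK K n).comap (Pi.evalMonoidHom (fun _ : Fin k => Perm (Words k)) x) := by
      ext s
      simp only [Subgroup.mem_iInf, Subgroup.mem_comap]
      exact ⟨fun h x => h x (Set.mem_univ x), fun h x _ => h x⟩
    rw [h1]
    apply Subgroup.relIndex_iInf_ne_zero
    intro x
    rw [Subgroup.relIndex_comap]
    intro hc
    apply ih
    refine Subgroup.relIndex_eq_zero_of_le_right ?_ hc
    rintro _ ⟨s, hs, rfl⟩
    exact hs x (Set.mem_univ x)

omit hR in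
theorem dpR_mem (v : Words k) : ∀ {g : Perm (Words k)}, g ∈ K → dpR v g ∈ KK K v.length := by
  induction v with
  | nil => intro g hg; exact hg
  | cons x v ih =>
    intro g hg
    refine ⟨Pi.mulSingle x (dpR v g), ?_, rfl⟩
    intro y _
    by_cases h : y = x
    · subst h
      change (Pi.mulSingle y (dpR v g) : Fin k → Perm (Words k)) y ∈ KK K v.length
      rw [Pi.mulSingle_eq_same]
      exact ih hg
    · change (Pi.mulSingle x (dpR v g) : Fin k → Perm (Words k)) y ∈ KK K v.length
      rw [Pi.mulSingle_eq_of_ne h]
      exact one_mem _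

omit hR in
theorem KK_path (v : Words k) : ∀ {g : Perm (Words k)}, g ∈ KK K v.length →
    ∃ s ∈ K, ∀ u : Words k, g (v ++ u) = v ++ s u := by
  induction v with
  | nil => intro g hg; exact ⟨g, hg, fun u => rfl⟩
  | cons x v ih =>
    intro g hg
    obtain ⟨s, hs, rfl⟩ := hg
    obtain ⟨t, ht, h⟩ := ih (hs x (Set.mem_univ x))
    refine ⟨t, ht, fun u => ?_⟩
    rw [List.cons_append, nodeR_cons, h]
    rfl

theorem KK_short (n : ℕ) : ∀ {g : Perm (Words k)}, g ∈ KK K n → ∀ v : Words k, v.length ≤ n →
    g v = v := by
  induction n with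
  | zero =>
    intro g hg v hv
    have : v = [] := List.length_eq_zero_iff.1 (by omega)
    subst this
    exact hR.map_nil g (hR.le hg)
  | succ n ih =>
    rintro _ ⟨s, hs, rfl⟩ v hv
    cases v with
    | nil => rfl
    | cons x v => rw [nodeR_cons, ih (hs x (Set.mem_univ x)) v (by simpa using hv)]

/-- peeling off the vertices one at a time -/
theorem rist_aux (n : ℕ) (S : Finset (Words k)) (hS : ∀ v ∈ S, v.length = n) :
    ∀ g : G, g.1 ∈ KK K n → (∀ x : Words k, (∀ v ∈ S, ¬ v <+: x) → g.1 x = x) →
      g ∈ (⨆ v : {v : Words k // (treeR k hR.two_le).lev v = n},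
        (treeR k hR.two_le).rist G v.1) := by
  classical
  induction S using Finset.induction_on with
  | empty =>
    intro g _ hx
    have : g = 1 := by
      ext x : 2
      exact hx x (by simp)
    rw [this]
    exact one_mem _
  | insert v S hvS ih =>
    intro g hg hx
    have hvn : v.length = n := hS v (Finset.mem_insert_self v S)
    have hg' : g.1 ∈ KK K v.length := by rw [hvn]; exact hg
    obtain ⟨s, hs, hsg⟩ := KK_path v hg'
    have hmem : dpR v s ∈ KK K n := by rw [← hvn]; exact dpR_mem v hs
    set p : G := ⟨dpR v s, hR.le (hR.KK_le n hmem)⟩ with hp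
    have ppos : ∀ x : Words k, v <+: x → p.1 x = g.1 x := by
      rintro x ⟨u, rfl⟩
      rw [hsg]
      exact dpR_append v s u
    have pneg : ∀ x : Words k, ¬ v <+: x → p.1 x = x := fun x h => dpR_not_prefix v s x h
    have hp1 : p ∈ (⨆ v : {v : Words k // (treeR k hR.two_le).lev v = n},
        (treeR k hR.two_le).rist G v.1) := by
      refine (le_iSup (fun v : {v : Words k // (treeR k hR.two_le).lev v = n} =>
        (treeR k hR.two_le).rist G v.1) ⟨v, hvn⟩) ?_
      intro w hw
      rw [belowR_iff] at hw
      exact pneg w hw
    have key : p⁻¹ * g ∈ (⨆ v : {v : Words k // (treeR k hR.two_le).lev v = n},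
        (treeR k hR.two_le).rist G v.1) := by
      apply ih (fun u hu => hS u (Finset.mem_insert_of_mem hu))
      · exact mul_mem (inv_mem hmem) hg
      · intro x hxS
        rw [Subgroup.coe_mul, Perm.mul_apply, Subgroup.coe_inv, Perm.inv_eq_iff_eq]
        by_cases h : v <+: x
        · exact (ppos x h).symm
        · rw [pneg x h]
          apply hx
          intro u hu
          rcases Finset.mem_insert.1 hu with rfl | hu
          · exact h
          · exact hxS u hu
    have := mul_mem hp1 key
    simpa using this

theorem isBranch : IsBranchAction (treeR k hR.two_le) G where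
  lev_smul g v := hR.length_eq v g.2
  par_smul g v := hR.dropLast_eq v g.2
  faithful g h := by
    ext v : 2
    exact h v
  transitive v w h := by
    obtain ⟨g, hg, hgv⟩ := hR.transitive v w h
    exact ⟨⟨g, hg⟩, hgv⟩
  rist_index n := by
    have h1 : (KK K n).relIndex G ≠ 0 :=
      Subgroup.relIndex_ne_zero_trans (hR.KK_index n) hR.index
    have h2 : ((KK K n).subgroupOf G).FiniteIndex := ⟨h1⟩
    refine Subgroup.finiteIndex_of_le (H := (KK K n).subgroupOf G) ?_
    intro g hg
    refine hR.rist_aux n (List.finite_length_eq (Fin k) n).toFinset (by simp) g hg ?_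
    intro x hx
    apply hR.KK_short n hg
    by_contra hlt
    apply hx (x.take n)
    · simp
      omega
    · exact List.take_prefix n x

theorem larger_rist_G (v : Words k) : Larger ((treeR k hR.two_le).rist G v) G := by
  apply larger_of_corr
  let D : Subgroup ((treeR k hR.two_le).rist G v × G) :=
    { carrier := {x | x.1.1.1 = dpR v x.2.1}
      one_mem' := by
        change (1 : Perm (Words k)) = dpR v 1
        rw [map_one]
      mul_mem' := by
        rintro a b ha hb
        change a.1.1.1 * b.1.1.1 = dpR v (a.2.1 * b.2.1)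
        rw [map_mul]
        exact congrArg₂ _ ha hb
      inv_mem' := by
        rintro a ha
        change a.1.1.1⁻¹ = dpR v a.2.1⁻¹
        rw [map_inv]
        exact congrArg _ ha }
  refine ⟨D, ?_, ?_, ?_⟩
  · have : D.map (MonoidHom.fst _ _) = ⊤ := by
      rw [eq_top_iff]
      rintro r -
      have hfix : r.1.1 v = v := by
        have h1 := hR.length_eq v r.1.2
        by_contra hne
        have h2 : ¬ (treeR k hR.two_le).Below v (r.1.1 v) := by
          rw [belowR_iff]
          intro hp
          exact hne (hp.eq_of_length h1.symm).symm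
        have h3 := r.2 _ h2
        exact hne (r.1.1.injective h3)
      obtain ⟨s, hs, h⟩ := hR.path_fix r.1.2 hfix
      refine ⟨(r, ⟨s, hs⟩), ?_, rfl⟩
      change r.1.1 = dpR v s
      ext w : 1
      by_cases hw : v <+: w
      · obtain ⟨u, rfl⟩ := hw
        rw [h, dpR_append]
      · rw [dpR_not_prefix v s w hw]
        exact r.2 w (by rw [belowR_iff]; exact hw)
    rw [this]
    infer_instance
  · have h2 : (K.subgroupOf G).FiniteIndex := ⟨hR.index⟩
    refine Subgroup.finiteIndex_of_le (H := K.subgroupOf G) ?_
    intro g hg
    have hmem : dpR v g.1 ∈ G := hR.le (hR.KK_le _ (dpR_mem v hg))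
    refine ⟨(⟨⟨dpR v g.1, hmem⟩, ?_⟩, g), rfl, rfl⟩
    intro w hw
    rw [belowR_iff] at hw
    exact dpR_not_prefix v g.1 w hw
  · refine (Set.finite_singleton (1 : G)).subset ?_
    intro g hg
    change (1 : Perm (Words k)) = dpR v g.1 at hg
    rw [Set.mem_singleton_iff]
    ext u : 2
    have h1 := congrArg (fun f : Perm (Words k) => f (v ++ u)) hg
    simp only [dpR_append, Perm.one_apply] at h1
    exact (List.append_cancel_left h1).symm

/-- Every just infinite regular branch group is minimal. -/
theorem minimal (hJ : JustInfinite G) : IsMinimal G :=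
  (hR.isBranch.minimal_iff hJ).2 hR.larger_rist_G

end IsRegularBranch

end Pool.Agent.Helper581.Min
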