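import Pool.Agent.Helper581.Min.Defs

set_option autoImplicit false

namespace Pool.Agent.Helper581.Min

/-- The vertices of the `k`-ary tree: finite words over `{0, …, k-1}`; the children of `v` are
the words `v ++ [x]`. -/
abbrev Words (k : ℕ) := List (Fin k)

/-- The permutation of the words that fixes the first letter and acts as `s x` on the rest of a
word with first letter `x` (an element of the first level stabilizer with sections `s x`). -/
def nodeR {k : ℕ} : (Fin k → Equiv.Perm (Words k)) →* Equiv.Perm (Words k) where
  toFun s :=
    { toFun := fun v => match v with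
        | [] => []
        | x :: v => x :: s x v
      invFun := fun v => match v with
        | [] => []
        | x :: v => x :: (s x)⁻¹ v
      left_inv := by intro v; cases v <;> simp
      right_inv := by intro v; cases v <;> simp }
  map_one' := by
    ext v : 1
    cases v <;> simp
  map_mul' s t := by
    ext v : 1
    cases v <;> simp

/-- `G` is a self-similar level-transitive group of automorphisms of the `k`-ary tree that is
regular branch over `K`: `K` is a normal subgroup of finite index of `G`, and the group
`K × ⋯ × K` (`k` factors, acting on the `k` subtrees of the first level) is a subgroup of finite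
index of `K`. -/
structure IsRegularBranch (k : ℕ) (G K : Subgroup (Equiv.Perm (Words k))) : Prop where
  two_le : 2 ≤ k
  map_nil : ∀ g ∈ G, g [] = []
  self_similar : ∀ g ∈ G, ∀ x : Fin k, ∃ y : Fin k, ∃ s ∈ G, ∀ v : Words k, g (x :: v) = y :: s v
  transitive : ∀ v w : Words k, v.length = w.length → ∃ g ∈ G, g v = w
  le : K ≤ G
  normal : ∀ g ∈ G, ∀ h ∈ K, g * h * g⁻¹ ∈ K
  index : K.relIndex G ≠ 0
  pow_le : (Subgroup.pi Set.univ fun _ : Fin k => K).map nodeR ≤ K
  pow_index : ((Subgroup.pi Set.univ fun _ : Fin k => K).map nodeR).relIndex K ≠ 0

end Pool.Agent.Helper581.Min
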