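import Pool.Agent.Helper581.Min.Corr

set_option autoImplicit false

namespace Pool.Agent.Helper581.Min

open scoped commutatorElement

variable {V : Type} (T : SphericalTree V)

namespace SphericalTree

theorem lev_root : T.lev T.root = 0 := (T.lev_eq_zero _).2 rfl

theorem lev_par' (v : V) : T.lev (T.par v) = T.lev v - 1 := by
  by_cases h : v = T.root
  · subst h
    rw [T.par_root, T.lev_root]
  · have := T.lev_par v h
    omega

theorem lev_iter (k : ℕ) (v : V) : T.lev (T.par^[k] v) = T.lev v - k := by
  induction k generalizing v with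
  | zero => rfl
  | succ k ih =>
    rw [Function.iterate_succ_apply, ih, T.lev_par']
    omega

theorem iter_root (k : ℕ) : T.par^[k] T.root = T.root := by
  induction k with
  | zero => rfl
  | succ k ih => rw [Function.iterate_succ_apply, T.par_root, ih]

theorem Below.refl (v : V) : T.Below v v := ⟨0, rfl⟩

variable {T}

theorem Below.trans {u v w : V} (h1 : T.Below u v) (h2 : T.Below v w) : T.Below u w := by
  obtain ⟨k, rfl⟩ := h1
  obtain ⟨l, rfl⟩ := h2
  exact ⟨k + l, Function.iterate_add_apply _ _ _ _⟩

theorem Below.lev_le {v w : V} (h : T.Below v w) : T.lev v ≤ T.lev w := by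
  obtain ⟨k, rfl⟩ := h
  rw [T.lev_iter]
  omega

/-- the ancestor of level `n` -/
theorem Below.eq_iter {v w : V} (h : T.Below v w) : v = T.par^[T.lev w - T.lev v] w := by
  obtain ⟨k, rfl⟩ := h
  rw [T.lev_iter]
  rcases le_or_gt k (T.lev w) with hk | hk
  · congr 2
    omega
  · have h1 : T.par^[k] w = T.root := by
      rw [← T.lev_eq_zero, T.lev_iter]
      omega
    have h2 : T.par^[T.lev w - (T.lev w - k)] w = T.root := by
      rw [← T.lev_eq_zero, T.lev_iter]
      omega
    rw [h1, h2]

theorem Below.unique {v v' w : V} (h : T.Below v w) (h' : T.Below v' w)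
    (hl : T.lev v = T.lev v') : v = v' := by
  rw [h.eq_iter, h'.eq_iter, hl]

variable (T)

theorem exists_anc (w : V) {n : ℕ} (hn : n ≤ T.lev w) : ∃ v, T.Below v w ∧ T.lev v = n := by
  refine ⟨T.par^[T.lev w - n] w, ⟨_, rfl⟩, ?_⟩
  rw [T.lev_iter]
  omega

theorem exists_between {v w : V} (h : T.Below v w) {n : ℕ} (h1 : T.lev v ≤ n)
    (h2 : n ≤ T.lev w) : ∃ u, T.Below v u ∧ T.Below u w ∧ T.lev u = n := by
  obtain ⟨u, hu, hun⟩ := T.exists_anc w h2
  obtain ⟨v', hv', hvl⟩ := T.exists_anc u (n := T.lev v) (by omega)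
  have : v' = v := (hv'.trans hu).unique h hvl
  subst this
  exact ⟨u, hv', hu, hun⟩

theorem finite_children (v : V) : {w : V | w ≠ T.root ∧ T.par w = v}.Finite := by
  have h1 := T.card_children v
  have h2 := T.two_le_deg (T.lev v)
  have h3 : Finite {w : V // w ≠ T.root ∧ T.par w = v} := Nat.finite_of_card_ne_zero (by omega)
  exact Set.finite_coe_iff.1 h3

theorem finite_lev (n : ℕ) : {v : V | T.lev v = n}.Finite := by
  induction n with
  | zero =>
    refine (Set.finite_singleton T.root).subset ?_
    intro v hv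
    exact (T.lev_eq_zero v).1 hv
  | succ n ih =>
    refine (Set.Finite.biUnion ih (fun v _ => T.finite_children v)).subset ?_
    intro w hw
    have hw' : T.lev w = n + 1 := hw
    have h1 : w ≠ T.root := by
      intro h
      rw [← T.lev_eq_zero] at h
      omega
    simp only [Set.mem_iUnion]
    refine ⟨T.par w, ?_, h1, rfl⟩
    change T.lev (T.par w) = n
    rw [T.lev_par']
    omega

instance (n : ℕ) : Finite {v : V // T.lev v = n} := (T.finite_lev n).to_subtype

theorem exists_child (v : V) : ∃ w, T.par w = v ∧ T.lev w = T.lev v + 1 := by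
  have h1 := T.card_children v
  have h2 := T.two_le_deg (T.lev v)
  have h3 : Nonempty {w : V // w ≠ T.root ∧ T.par w = v} := by
    by_contra h
    rw [not_nonempty_iff] at h
    rw [Nat.card_of_isEmpty] at h1
    omega
  obtain ⟨w, hw, hwv⟩ := h3
  refine ⟨w, hwv, ?_⟩
  rw [← T.lev_par w hw, hwv]

theorem exists_desc (v : V) (k : ℕ) : ∃ w, T.Below v w ∧ T.lev w = T.lev v + k := by
  induction k with
  | zero => exact ⟨v, Below.refl T v, rfl⟩
  | succ k ih =>
    obtain ⟨w, hw, hl⟩ := ih
    obtain ⟨u, hu, hul⟩ := T.exists_child w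
    refine ⟨u, hw.trans ⟨1, hu⟩, by omega⟩

end SphericalTree

open SphericalTree

variable {T} {G : Type} [Group G] [MulAction G V]

theorem mem_rist {g : G} {v : V} : g ∈ T.rist G v ↔ ∀ w, ¬ T.Below v w → g • w = w := Iff.rfl

namespace IsBranchAction

variable (hB : IsBranchAction T G)

include hB

theorem iter_smul (g : G) (k : ℕ) (v : V) : T.par^[k] (g • v) = g • T.par^[k] v := by
  induction k generalizing v with
  | zero => rfl
  | succ k ih => rw [Function.iterate_succ_apply, hB.par_smul, ih, ← Function.iterate_succ_apply]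

theorem below_smul (g : G) (v w : V) : T.Below (g • v) (g • w) ↔ T.Below v w := by
  unfold SphericalTree.Below
  refine exists_congr fun k => ?_
  rw [hB.iter_smul]
  exact (MulAction.injective g).eq_iff

theorem conj_mem_rist {g : G} {v : V} (hg : g ∈ T.rist G v) (h : G) :
    h * g * h⁻¹ ∈ T.rist G (h • v) := by
  intro w hw
  have h1 : ¬ T.Below v (h⁻¹ • w) := by
    intro hc
    apply hw
    have := (hB.below_smul h v (h⁻¹ • w)).2 hc
    rwa [smul_inv_smul] at this
  rw [mul_smul, mul_smul, hg _ h1, smul_inv_smul]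

/-- disjoint supports commute -/
theorem comm_of_disjoint (S : Set V) {a b : G} (ha : ∀ w, w ∉ S → a • w = w)
    (hb : ∀ w ∈ S, b • w = w) : a * b = b * a := by
  have key : ∀ v : V, (a * b) • v = (b * a) • v := by
    intro v
    rw [mul_smul, mul_smul]
    by_cases hv : v ∈ S
    · have h1 : a • v ∈ S := by
        by_contra hc
        have := ha _ hc
        rw [MulAction.injective a this] at hc
        exact hc hv
      rw [hb v hv, hb _ h1]
    · have h1 : b • v ∉ S := by
        intro hc
        have := hb _ hc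
        rw [MulAction.injective b this] at hc
        exact hv hc
      rw [ha v hv, ha _ h1]
  have h2 : (b * a)⁻¹ * (a * b) = 1 := by
    apply hB.faithful
    intro v
    rw [mul_smul, key, ← mul_smul, inv_mul_cancel, one_smul]
  rw [inv_mul_eq_one] at h2
  exact h2.symm

omit hB in
theorem rist_mono {v w : V} (h : T.Below v w) : T.rist G w ≤ T.rist G v := by
  intro g hg u hu
  exact hg u (fun hc => hu (h.trans hc))

/-- elements of `rist w` do not commute with elements moving `w` -/
theorem not_comm {g h : G} {w : V} (hg : g • w ≠ w) (hh : h ∈ T.rist G w) (h1 : h ≠ 1) :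
    g * h ≠ h * g := by
  intro hc
  apply h1
  have h2 : g * h * g⁻¹ = h := by rw [hc, mul_inv_cancel_right]
  have h3 := hB.conj_mem_rist hh g
  rw [h2] at h3
  apply hB.faithful
  intro x
  by_cases hx : T.Below w x
  · apply h3
    intro hx2
    exact hg (hx2.unique hx (hB.lev_smul g w))
  · exact hh x hx

/-- the elements fixing the subtree below `v` -/
def fixer (_ : IsBranchAction T G) (v : V) : Subgroup G where
  carrier := {g | ∀ w, T.Below v w → g • w = w}
  one_mem' := fun w _ => one_smul G w
  mul_mem' := fun {a b} ha hb w hw => by rw [mul_smul, hb w hw, ha w hw]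
  inv_mem' := fun {a} ha w hw => by rw [inv_smul_eq_iff, ha w hw]

theorem rist_fixer_comm {v : V} {a b : G} (ha : a ∈ T.rist G v) (hb : b ∈ hB.fixer v) :
    a * b = b * a :=
  hB.comm_of_disjoint {w | T.Below v w} (fun w hw => ha w hw) (fun w hw => hb w hw)

theorem rist_inf_fixer {v : V} {a : G} (ha : a ∈ T.rist G v) (hb : a ∈ hB.fixer v) : a = 1 := by
  apply hB.faithful
  intro w
  by_cases h : T.Below v w
  · exact hb w h
  · exact ha w h

theorem rist_le_fixer {v v' : V} (hne : v ≠ v') (hl : T.lev v = T.lev v') :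
    T.rist G v' ≤ hB.fixer v := by
  intro g hg w hw
  apply hg
  intro hc
  exact hne (hw.unique hc hl)

theorem rist_comm {v v' : V} (hne : v ≠ v') (hl : T.lev v = T.lev v') {a b : G}
    (ha : a ∈ T.rist G v) (hb : b ∈ T.rist G v') : a * b = b * a :=
  hB.rist_fixer_comm ha (hB.rist_le_fixer hne hl hb)

end IsBranchAction

end Pool.Agent.Helper581.Min
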